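import Pool.Agent.helper71.FT.Comp

/-! The final metric. -/

namespace Pool.Agent.helper71.FT

open Ex Filter Topology

/-- coordinate change -/
noncomputable def ph (r : ℝ) (i : Fin 4) (s : ℝ) : ℝ :=
  match i with
  | 0 => 2 * Real.pi * s
  | 1 => 2 * Real.pi * s
  | 2 => r / 2 * Real.arctan s
  | 3 => r / 2 * Real.arctan s

/-- its derivative -/
noncomputable def dph (r : ℝ) (i : Fin 4) (s : ℝ) : ℝ :=
  match i with
  | 0 => 2 * Real.pi
  | 1 => 2 * Real.pi
  | 2 => r / 2 * (1 + s ^ 2)⁻¹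
  | 3 => r / 2 * (1 + s ^ 2)⁻¹

theorem hph (r : ℝ) : ∀ i s, HasDerivAt (ph r i) (dph r i s) s := by
  intro i s
  have h1 : HasDerivAt (fun s : ℝ => 2 * Real.pi * s) (2 * Real.pi) s := by
    simpa using (hasDerivAt_id s).const_mul (2 * Real.pi)
  have h2 : HasDerivAt (fun s : ℝ => r / 2 * Real.arctan s) (r / 2 * (1 + s ^ 2)⁻¹) s := by
    simpa using (Real.hasDerivAt_arctan s).const_mul (r / 2)
  fin_cases i
  · exact h1
  · exact h1
  · exact h2
  · exact h2

theorem contDiff_dph (r : ℝ) (i : Fin 4) (n : ℕ) : ContDiff ℝ n (dph r i) := by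
  have h : ContDiff ℝ n fun s : ℝ => r / 2 * (1 + s ^ 2)⁻¹ := by
    refine contDiff_const.mul (ContDiff.inv (by fun_prop) fun s => ?_)
    positivity
  fin_cases i
  · exact contDiff_const
  · exact contDiff_const
  · exact h
  · exact h

theorem contDiff_ph (r : ℝ) (i : Fin 4) (n : ℕ) : ContDiff ℝ n (ph r i) := by
  have h : ContDiff ℝ n fun s : ℝ => r / 2 * Real.arctan s :=
    contDiff_const.mul Real.contDiff_arctan
  have h2 : ContDiff ℝ n fun s : ℝ => 2 * Real.pi * s := contDiff_const.mul contDiff_id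
  fin_cases i
  · exact h2
  · exact h2
  · exact h
  · exact h

/-- the metric near the torus -/
noncomputable def GG (t : ℝ) : Met := fun i j => fn (ge t i j)

theorem differentiable_fn (e : Ex) : Differentiable ℝ (fn e) :=
  fun X => (hasFDerivAt_fn e X).differentiableAt

theorem GG_symm (t : ℝ) (i j : Fin 4) : GG t i j = GG t j i := by
  unfold GG; rw [ge_symm]

/-- cosines and sines -/
noncomputable def wv (X : Fin 4 → ℝ) : Fin 4 → ℝ :=
  ![Real.cos (2 * X 0 + X 1), Real.sin (2 * X 0 + X 1),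
    Real.cos (X 0 + 2 * X 1), Real.sin (X 0 + 2 * X 1)]

theorem pt_eq (X : Fin 4 → ℝ) : pt X = rp (wv X) (X 2, X 3) := by
  unfold pt rp wv
  simp

theorem wv_circ (X : Fin 4 → ℝ) : wv X 0 ^ 2 + wv X 1 ^ 2 = 1 ∧ wv X 2 ^ 2 + wv X 3 ^ 2 = 1 := by
  constructor
  · simp [wv]
  · simp [wv]

theorem Gam_GG (t : ℝ) (a k l : Fin 4) (X : Fin 4 → ℝ) :
    Gam (GG t) a k l X = GamE t (rp (wv X) (X 2, X 3)) a k l := by
  unfold Gam GG GamE
  have h := fun e k => congrFun (fderiv_fn e k) X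
  rw [h, h, h]
  simp only [fn, pt_eq]

theorem Sec_GG (t : ℝ) (i k l m : Fin 4) (X : Fin 4 → ℝ) :
    Sec (GG t) i k l m X = SecE t (rp (wv X) (X 2, X 3)) i k l m := by
  unfold Sec GG SecE
  have h := fun e k => congrFun (fderiv_fn e k) X
  simp only [fderiv_fn]
  rw [h, h, h, h]
  simp only [fn, pt_eq]

theorem Riem_GG (t : ℝ) (i k l m : Fin 4) (X : Fin 4 → ℝ) :
    Riem (GG t) i k l m X = RE t (rp (wv X) (X 2, X 3)) i k l m := by
  unfold Riem RE HH
  have hM : (Matrix.of fun p q => GG t p q X) = ME t (rp (wv X) (X 2, X 3)) := by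
    unfold GG ME fn; rw [pt_eq]
  rw [hM]
  simp only [Gam_GG, Sec_GG, mul_sub, Finset.sum_sub_distrib]
  ring

/-- the metric -/
noncomputable def gg (t r : ℝ) : Met := pg (ph r) (dph r) (GG t)

theorem contDiff_gg (t r : ℝ) (i j : Fin 4) (n : ℕ) : ContDiff ℝ n (gg t r i j) := by
  unfold gg pg GG
  have h1 : ∀ i, ContDiff ℝ n fun x : Fin 4 → ℝ => dph r i (x i) := fun i =>
    (contDiff_dph r i n).comp (contDiff_apply ℝ ℝ i)
  have h2 : ContDiff ℝ n fun (x : Fin 4 → ℝ) (i : Fin 4) => ph r i (x i) :=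
    contDiff_pi.2 fun i => (contDiff_ph r i n).comp (contDiff_apply ℝ ℝ i)
  exact ((h1 i).mul (h1 j)).mul ((contDiff_fn _ n).comp h2)

theorem ph_small (r : ℝ) (hr : 0 < r) (i : Fin 4) (hi : i = 2 ∨ i = 3) (s : ℝ) :
    |ph r i s| < r := by
  have h : |r / 2 * Real.arctan s| < r := by
    rw [abs_mul, abs_of_pos (half_pos hr)]
    have h1 : |Real.arctan s| < 2 := by
      rw [abs_lt]
      have := Real.arctan_lt_pi_div_two s
      have := Real.neg_pi_div_two_lt_arctan s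
      have := Real.pi_lt_four
      constructor <;> linarith
    nlinarith
  rcases hi with rfl | rfl
  · exact h
  · exact h

theorem dph_pos (r : ℝ) (hr : 0 < r) (i : Fin 4) (s : ℝ) : 0 < dph r i s := by
  have h : 0 < r / 2 * (1 + s ^ 2)⁻¹ := by positivity
  have h2 : 0 < 2 * Real.pi := by positivity
  fin_cases i
  · exact h2
  · exact h2
  · exact h
  · exact h

theorem gq_smul (t : ℝ) (y : ℝ × ℝ) (w v : Fin 4 → ℝ) (c : ℝ) :
    gq t y w (fun i => c * v i) = c ^ 2 * gq t y w v := by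
  unfold gq
  simp only [Finset.mul_sum]
  exact Finset.sum_congr rfl fun i _ => Finset.sum_congr rfl fun j _ => by ring

theorem sumsq_pos {n : ℕ} (v : Fin n → ℝ) (i : Fin n) (hi : v i ≠ 0) : 0 < ∑ i, v i ^ 2 :=
  Finset.sum_pos' (fun j _ => sq_nonneg _) ⟨i, Finset.mem_univ i, by positivity⟩

theorem normalized {n : ℕ} (w : Fin 4 → ℝ) (hw1 : w 0 ^ 2 + w 1 ^ 2 = 1)
    (hw2 : w 2 ^ 2 + w 3 ^ 2 = 1) (v : Fin n → ℝ) (hS : 0 < ∑ i, v i ^ 2) :
    (w, fun i => (Real.sqrt (∑ i, v i ^ 2))⁻¹ * v i) ∈ KK n := by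
  refine ⟨hw1, hw2, ?_⟩
  simp only [mul_pow, ← Finset.mul_sum, inv_pow]
  rw [Real.sq_sqrt hS.le]
  exact inv_mul_cancel₀ hS.ne'

theorem gg_pos (t r : ℝ) (hr : 0 < r)
    (h : ∀ y : ℝ × ℝ, |y.1| < r → |y.2| < r → ∀ p ∈ KK 4, 0 < gq t y p.1 p.2)
    (x v : Fin 4 → ℝ) (hv : v ≠ 0) : 0 < ∑ i, ∑ j, gg t r i j x * v i * v j := by
  set X : Fin 4 → ℝ := fun i => ph r i (x i) with hX
  set u : Fin 4 → ℝ := fun i => dph r i (x i) * v i with hu
  have e : ∑ i, ∑ j, gg t r i j x * v i * v j = gq t (X 2, X 3) (wv X) u := by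
    unfold gq
    refine Finset.sum_congr rfl fun i _ => Finset.sum_congr rfl fun j _ => ?_
    unfold gg pg GG fn
    rw [pt_eq, hu]; ring
  rw [e]
  obtain ⟨i, hi⟩ : ∃ i, v i ≠ 0 := by
    by_contra hc
    push Not at hc
    exact hv (funext hc)
  have hui : u i ≠ 0 := mul_ne_zero (dph_pos r hr i _).ne' hi
  have hS := sumsq_pos u i hui
  have h1 := h (X 2, X 3) (ph_small r hr 2 (Or.inl rfl) _) (ph_small r hr 3 (Or.inr rfl) _) _
    (normalized (wv X) (wv_circ X).1 (wv_circ X).2 u hS)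
  simp only at h1
  rw [gq_smul, inv_pow, Real.sq_sqrt hS.le] at h1
  exact pos_of_mul_pos_right h1 (inv_nonneg.2 hS.le)

theorem gg_per (t r : ℝ) (i j : Fin 4) (x : Fin 4 → ℝ) :
    gg t r i j (x + (Pi.single 0 1 : Fin 4 → ℝ)) = gg t r i j x ∧
    gg t r i j (x + (Pi.single 1 1 : Fin 4 → ℝ)) = gg t r i j x := by
  have hd : ∀ k : Fin 4, (k = 0 ∨ k = 1) → ∀ i : Fin 4,
      dph r i ((x + (Pi.single k 1 : Fin 4 → ℝ)) i) = dph r i (x i) := by
    intro k hk i
    fin_cases i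
    · rfl
    · rfl
    · rcases hk with rfl | rfl <;> simp
    · rcases hk with rfl | rfl <;> simp
  have c1 : ∀ a : ℝ, Real.cos (a + 2 * (2 * Real.pi)) = Real.cos a := fun a => by
    have := Real.cos_periodic.int_mul 2 a
    simpa using this
  have s1 : ∀ a : ℝ, Real.sin (a + 2 * (2 * Real.pi)) = Real.sin a := fun a => by
    have := Real.sin_periodic.int_mul 2 a
    simpa using this
  have hp : ∀ k : Fin 4, (k = 0 ∨ k = 1) →
      pt (fun i => ph r i ((x + (Pi.single k 1 : Fin 4 → ℝ)) i)) = pt (fun i => ph r i (x i)) := by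
    intro k hk
    have e0 : ∀ s : ℝ, ph r 0 s = 2 * Real.pi * s := fun s => rfl
    have e1 : ∀ s : ℝ, ph r 1 s = 2 * Real.pi * s := fun s => rfl
    rcases hk with rfl | rfl
    · unfold pt
      simp only [e0, e1, Pi.add_apply, Pi.single_eq_same,
        Pi.single_eq_of_ne (show (1 : Fin 4) ≠ 0 by decide),
        Pi.single_eq_of_ne (show (2 : Fin 4) ≠ 0 by decide),
        Pi.single_eq_of_ne (show (3 : Fin 4) ≠ 0 by decide), add_zero]
      rw [show 2 * (2 * Real.pi * (x 0 + 1)) + 2 * Real.pi * x 1 =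
          (2 * (2 * Real.pi * x 0) + 2 * Real.pi * x 1) + 2 * (2 * Real.pi) by ring,
        show 2 * Real.pi * (x 0 + 1) + 2 * (2 * Real.pi * x 1) =
          (2 * Real.pi * x 0 + 2 * (2 * Real.pi * x 1)) + 2 * Real.pi by ring, c1, s1,
        Real.cos_add_two_pi, Real.sin_add_two_pi]
    · unfold pt
      simp only [e0, e1, Pi.add_apply, Pi.single_eq_same,
        Pi.single_eq_of_ne (show (0 : Fin 4) ≠ 1 by decide),
        Pi.single_eq_of_ne (show (2 : Fin 4) ≠ 1 by decide),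
        Pi.single_eq_of_ne (show (3 : Fin 4) ≠ 1 by decide), add_zero]
      rw [show 2 * (2 * Real.pi * x 0) + 2 * Real.pi * (x 1 + 1) =
          (2 * (2 * Real.pi * x 0) + 2 * Real.pi * x 1) + 2 * Real.pi by ring,
        show 2 * Real.pi * x 0 + 2 * (2 * Real.pi * (x 1 + 1)) =
          (2 * Real.pi * x 0 + 2 * (2 * Real.pi * x 1)) + 2 * (2 * Real.pi) by ring, c1, s1,
        Real.cos_add_two_pi, Real.sin_add_two_pi]
  constructor
  · unfold gg pg GG fn
    rw [hd 0 (Or.inl rfl) i, hd 0 (Or.inl rfl) j, hp 0 (Or.inl rfl)]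
  · unfold gg pg GG fn
    rw [hd 1 (Or.inr rfl) i, hd 1 (Or.inr rfl) j, hp 1 (Or.inr rfl)]

/-- the derivative of `dph` -/
noncomputable def ddph (r : ℝ) (i : Fin 4) (s : ℝ) : ℝ := deriv (dph r i) s

theorem contDiff_ddph (r : ℝ) (i : Fin 4) (n : ℕ) : ContDiff ℝ n (ddph r i) := by
  have h := contDiff_dph r i (n + 1)
  have h2 : ContDiff ℝ (n : ℕ∞) (deriv (dph r i)) := by
    have h3 : ContDiff ℝ ((n : WithTop ℕ∞) + 1) (dph r i) := by exact_mod_cast h
    exact_mod_cast (contDiff_succ_iff_deriv.1 h3).2.2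
  exact_mod_cast h2

theorem hdph (r : ℝ) : ∀ i s, HasDerivAt (dph r i) (ddph r i s) s := fun i s =>
  ((contDiff_dph r i 1).differentiable (by norm_num) s).hasDerivAt

theorem hddph (r : ℝ) : ∀ i s, HasDerivAt (ddph r i) (deriv (ddph r i) s) s := fun i s =>
  ((contDiff_ddph r i 1).differentiable (by norm_num) s).hasDerivAt

theorem Riem_gg (t r : ℝ) (hr : 0 < r)
    (h : ∀ y : ℝ × ℝ, |y.1| < r → |y.2| < r → ∀ p ∈ KK 1, (ME t (rp p.1 y)).det ≠ 0)
    (i k l m : Fin 4) (x : Fin 4 → ℝ) :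
    Riem (gg t r) i k l m x = dph r i (x i) * dph r k (x k) * dph r l (x l) * dph r m (x m) *
      RE t (rp (wv fun i => ph r i (x i)) (ph r 2 (x 2), ph r 3 (x 3))) i k l m := by
  set X : Fin 4 → ℝ := fun i => ph r i (x i) with hX
  have hu : IsUnit (Matrix.of fun p q => GG t p q X).det := by
    have hM : (Matrix.of fun p q => GG t p q X) = ME t (rp (wv X) (X 2, X 3)) := by
      unfold GG ME fn; rw [pt_eq]
    rw [hM, isUnit_iff_ne_zero]
    exact h (X 2, X 3) (ph_small r hr 2 (Or.inl rfl) _) (ph_small r hr 3 (Or.inr rfl) _)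
      (wv X, fun _ => 1) ⟨(wv_circ X).1, (wv_circ X).2, by simp⟩
  have hG1 : ∀ i j k, Differentiable ℝ (fun X => fderiv ℝ (GG t i j) X (Pi.single k 1)) := by
    intro i j k
    unfold GG
    rw [fderiv_fn]
    exact differentiable_fn _
  unfold gg
  rw [riem_pg (hph r) (hdph r) (hddph r) (fun i s => (dph_pos r hr i s).ne') (GG t)
    (fun i j => differentiable_fn _) (GG_symm t) hG1 i k l m x hu, Riem_GG]

theorem GamE_zero (t : ℝ) (w : Fin 4 → ℝ) (a i j : Fin 4) (hi : i.val < 2) (hj : j.val < 2) :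
    GamE t (rp w 0) a i j = 0 := by
  have h2 := hom2 t w (0, 0) 0
  have h1 := hom1 t w (0, 0) 0
  simp only [mul_zero, zero_mul, ne_eq, OfNat.ofNat_ne_zero, not_false_eq_true, zero_pow] at h1 h2
  obtain ⟨a1, a2, a3, a4, a5, a6⟩ := h2
  obtain ⟨b1, b2, b3, b4, b5, b6⟩ := h1
  change GamE t (rp w (0, 0)) a i j = 0
  have hi' : i = 0 ∨ i = 1 := by
    rcases i with ⟨i, h⟩
    simp only at hi
    interval_cases i
    · exact Or.inl rfl
    · exact Or.inr rfl
  have hj' : j = 0 ∨ j = 1 := by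
    rcases j with ⟨j, h⟩
    simp only at hj
    interval_cases j
    · exact Or.inl rfl
    · exact Or.inr rfl
  rcases hi' with rfl | rfl <;> rcases hj' with rfl | rfl
  · fin_cases a
    · exact a1
    · exact a4
    · exact b1
    · exact b4
  · fin_cases a
    · exact a2
    · exact a5
    · exact b2
    · exact b5
  · rw [GamE_symm]
    fin_cases a
    · exact a2
    · exact a5
    · exact b2
    · exact b5
  · fin_cases a
    · exact a3
    · exact a6
    · exact b3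
    · exact b6

theorem Gam_gg_zero (t r : ℝ) (x : Fin 4 → ℝ) (h2 : x 2 = 0) (h3 : x 3 = 0) (a i j : Fin 4)
    (hi : i.val < 2) (hj : j.val < 2) : Gam (gg t r) a i j x = 0 := by
  unfold gg
  rw [gam_pg (hph r) (hdph r) (GG t) (fun i j => differentiable_fn _) (GG_symm t) a i j x, Gam_GG]
  have e : ((ph r 2 (x 2), ph r 3 (x 3)) : ℝ × ℝ) = 0 := by
    rw [h2, h3]
    simp [ph]
  simp only [e]
  rw [GamE_zero t _ a i j hi hj]
  have hdd : ddph r i (x i) = 0 := by
    have hi' : i = 0 ∨ i = 1 := by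
      rcases i with ⟨i, h⟩
      simp only at hi
      interval_cases i
      · exact Or.inl rfl
      · exact Or.inr rfl
    rcases hi' with rfl | rfl
    · exact deriv_const _ _
    · exact deriv_const _ _
  rw [hdd]; ring

theorem Riem_gg_zero (t r : ℝ) (hr : 0 < r)
    (h : ∀ y : ℝ × ℝ, |y.1| < r → |y.2| < r → ∀ p ∈ KK 1, (ME t (rp p.1 y)).det ≠ 0)
    (x : Fin 4 → ℝ) (h2 : x 2 = 0) (h3 : x 3 = 0) : Riem (gg t r) 0 1 0 1 x = 0 := by
  rw [Riem_gg t r hr h]
  have e : ((ph r 2 (x 2), ph r 3 (x 3)) : ℝ × ℝ) = 0 := by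
    rw [h2, h3]
    simp [ph]
  rw [e]
  set w := wv fun i => ph r i (x i)
  have hS : SecE t (rp w 0) 0 1 0 1 = 0 := by
    have := (homS t w (0, 0) 0).1
    simp only [mul_zero, ne_eq, OfNat.ofNat_ne_zero, not_false_eq_true, zero_pow, zero_mul] at this
    exact this
  have g1 : (fun a => GamE t (rp w 0) a 1 0) = fun _ => 0 :=
    funext fun a => GamE_zero t w a 1 0 (by decide) (by decide)
  have g2 : (fun a => GamE t (rp w 0) a 1 1) = fun _ => 0 :=
    funext fun a => GamE_zero t w a 1 1 (by decide) (by decide)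
  unfold RE
  rw [hS, g1, g2]
  unfold HH
  simp

theorem linInd_minor (u v : Fin 4 → ℝ) (h : LinearIndependent ℝ ![u, v]) :
    ∃ i j : Fin 4, u i * v j - u j * v i ≠ 0 := by
  by_contra hc
  push Not at hc
  rw [LinearIndependent.pair_iff] at h
  have hu : u ≠ 0 := by
    intro hu
    have := (h 1 0 (by rw [hu]; simp)).1
    exact one_ne_zero this
  obtain ⟨i, hi⟩ : ∃ i, u i ≠ 0 := by
    by_contra hc
    push Not at hc
    exact hu (funext hc)
  have := (h (v i) (-(u i)) (by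
    funext j
    have := hc i j
    simp only [Pi.add_apply, Pi.smul_apply, smul_eq_mul, Pi.zero_apply]
    linarith)).2
  exact hi (neg_eq_zero.1 this)

theorem gg_curv (t r : ℝ) (hr : 0 < r)
    (h : ∀ y : ℝ × ℝ, |y.1| < r → |y.2| < r → ∀ p ∈ KK 1, (ME t (rp p.1 y)).det ≠ 0)
    (hF : ∀ y : ℝ × ℝ, |y.1| < r → |y.2| < r → ∀ p ∈ KK 7, 0 < FF t y p.1 p.2)
    (x : Fin 4 → ℝ) (hx : x 2 ≠ 0 ∨ x 3 ≠ 0) (u v : Fin 4 → ℝ)
    (huv : LinearIndependent ℝ ![u, v]) :
    0 < ∑ i, ∑ k, ∑ l, ∑ m, Riem (gg t r) i k l m x * u i * v k * u l * v m := by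
  set X : Fin 4 → ℝ := fun i => ph r i (x i) with hX
  set w := wv X with hw
  set y : ℝ × ℝ := (ph r 2 (x 2), ph r 3 (x 3)) with hy
  set U : Fin 4 → ℝ := fun i => dph r i (x i) * u i with hU
  set V : Fin 4 → ℝ := fun i => dph r i (x i) * v i with hV
  have e : ∑ i, ∑ k, ∑ l, ∑ m, Riem (gg t r) i k l m x * u i * v k * u l * v m =
      ∑ i, ∑ k, ∑ l, ∑ m, RE t (rp w y) i k l m * U i * V k * U l * V m := by
    refine Finset.sum_congr rfl fun i _ => Finset.sum_congr rfl fun k _ =>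
      Finset.sum_congr rfl fun l _ => Finset.sum_congr rfl fun m _ => ?_
    rw [Riem_gg t r hr h]
    simp only [hU, hV]; ring
  rw [e]
  have hy0 : y.1 ≠ 0 ∨ y.2 ≠ 0 := by
    rcases hx with hx | hx
    · left
      exact mul_ne_zero (half_pos hr).ne' (by rwa [ne_eq, Real.arctan_eq_zero_iff])
    · right
      exact mul_ne_zero (half_pos hr).ne' (by rwa [ne_eq, Real.arctan_eq_zero_iff])
  obtain ⟨i, j, hij⟩ := linInd_minor u v huv
  have hIJ : U i * V j - U j * V i ≠ 0 := by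
    have e1 : U i * V j - U j * V i =
        dph r i (x i) * dph r j (x j) * (u i * v j - u j * v i) := by
      simp only [hU, hV]; ring
    rw [e1]
    exact mul_ne_zero (mul_ne_zero (dph_pos r hr i _).ne' (dph_pos r hr j _).ne') hij
  set Z : Fin 7 → ℝ := ![(U 0 * V 1 - U 1 * V 0) * y.1, (U 0 * V 1 - U 1 * V 0) * y.2,
    U 0 * V 2 - U 2 * V 0, U 0 * V 3 - U 3 * V 0, U 1 * V 2 - U 2 * V 1, U 1 * V 3 - U 3 * V 1,
    U 2 * V 3 - U 3 * V 2] with hZ
  have hS : 0 < ∑ i, Z i ^ 2 := by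
    by_contra hneg
    rw [not_lt] at hneg
    have h0 : ∀ k, Z k = 0 := by
      have hs : ∑ i, Z i ^ 2 = 0 := le_antisymm hneg (Finset.sum_nonneg fun i _ => sq_nonneg _)
      intro k
      have := (Finset.sum_eq_zero_iff_of_nonneg (fun i _ => sq_nonneg (Z i))).1 hs k
        (Finset.mem_univ k)
      rwa [pow_eq_zero_iff two_ne_zero] at this
    have z0 : (U 0 * V 1 - U 1 * V 0) * y.1 = 0 := h0 0
    have z1 : (U 0 * V 1 - U 1 * V 0) * y.2 = 0 := h0 1
    have z2 : U 0 * V 2 - U 2 * V 0 = 0 := h0 2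
    have z3 : U 0 * V 3 - U 3 * V 0 = 0 := h0 3
    have z4 : U 1 * V 2 - U 2 * V 1 = 0 := h0 4
    have z5 : U 1 * V 3 - U 3 * V 1 = 0 := h0 5
    have z6 : U 2 * V 3 - U 3 * V 2 = 0 := h0 6
    have z01 : U 0 * V 1 - U 1 * V 0 = 0 := by
      rcases hy0 with hy0 | hy0
      · exact (mul_eq_zero.1 z0).resolve_right hy0
      · exact (mul_eq_zero.1 z1).resolve_right hy0
    apply hIJ
    fin_cases i <;> fin_cases j <;> simp only [Fin.zero_eta, Fin.mk_one, Fin.reduceFinMk] <;>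
      linarith
  set c : ℝ := (Real.sqrt (∑ i, Z i ^ 2))⁻¹ with hc
  have hc2 : c ^ 2 * (∑ i, Z i ^ 2) = 1 := by
    rw [hc, inv_pow, Real.sq_sqrt hS.le]
    exact inv_mul_cancel₀ hS.ne'
  have hcpos : 0 < c ^ 2 := by
    rcases (sq_nonneg c).lt_or_eq with h | h
    · exact h
    · rw [← h, zero_mul] at hc2; exact absurd hc2 zero_ne_one
  have hmem : (w, fun i => c * Z i) ∈ KK 7 :=
    normalized w (wv_circ X).1 (wv_circ X).2 Z hS
  have hpos := hF y (ph_small r hr 2 (Or.inl rfl) _) (ph_small r hr 3 (Or.inr rfl) _) _ hmem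
  have hFF := FF_eq t w y (fun i => c * U i) V _ _ _ _ _ _ rfl rfl rfl rfl rfl rfl
  have hvec : (![(c * U 0 * V 1 - c * U 1 * V 0) * y.1, (c * U 0 * V 1 - c * U 1 * V 0) * y.2,
      c * U 0 * V 2 - c * U 2 * V 0, c * U 0 * V 3 - c * U 3 * V 0, c * U 1 * V 2 - c * U 2 * V 1,
      c * U 1 * V 3 - c * U 3 * V 1, c * U 2 * V 3 - c * U 3 * V 2] : Fin 7 → ℝ) =
      fun i => c * Z i := by
    funext i
    rw [hZ]
    fin_cases i
    · simp; ring
    · simp; ring
    · simp; ring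
    · simp; ring
    · simp; ring
    · simp; ring
    · simp; ring
  rw [hvec] at hFF
  have hscale : ∑ i, ∑ k, ∑ l, ∑ m, RE t (rp w y) i k l m * (c * U i) * V k * (c * U l) * V m =
      c ^ 2 * ∑ i, ∑ k, ∑ l, ∑ m, RE t (rp w y) i k l m * U i * V k * U l * V m := by
    simp only [Finset.mul_sum]
    exact Finset.sum_congr rfl fun i _ => Finset.sum_congr rfl fun k _ =>
      Finset.sum_congr rfl fun l _ => Finset.sum_congr rfl fun m _ => by ring
  simp only at hFF hpos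
  rw [hscale] at hFF
  rw [← hFF] at hpos
  exact pos_of_mul_pos_right hpos hcpos.le

end Pool.Agent.helper71.FT
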