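import Pool.Agent.helper71.FT.Cont

/-! Compactness arguments. -/

namespace Pool.Agent.helper71.FT

open Ex Filter Topology

/-- pairs of points of the circle and a unit vector -/
def KK (n : ℕ) : Set ((Fin 4 → ℝ) × (Fin n → ℝ)) :=
  {p | p.1 0 ^ 2 + p.1 1 ^ 2 = 1 ∧ p.1 2 ^ 2 + p.1 3 ^ 2 = 1 ∧ ∑ i, p.2 i ^ 2 = 1}

theorem isCompact_KK (n : ℕ) : IsCompact (KK n) := by
  refine Metric.isCompact_of_isClosed_isBounded ?_ ?_
  · have h1 : ∀ i : Fin 4, Continuous fun p : (Fin 4 → ℝ) × (Fin n → ℝ) => p.1 i := fun i =>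
      (continuous_apply i).comp continuous_fst
    have h2 : ∀ i : Fin n, Continuous fun p : (Fin 4 → ℝ) × (Fin n → ℝ) => p.2 i := fun i =>
      (continuous_apply i).comp continuous_snd
    refine IsClosed.and (isClosed_eq (((h1 0).pow 2).add ((h1 1).pow 2)) continuous_const)
      (IsClosed.and (isClosed_eq (((h1 2).pow 2).add ((h1 3).pow 2)) continuous_const)
      (isClosed_eq (continuous_finsetSum _ fun i _ => (h2 i).pow 2) continuous_const))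
  · refine Metric.isBounded_closedBall (x := (0 : (Fin 4 → ℝ) × (Fin n → ℝ))) (r := 1) |>.subset ?_
    rintro ⟨w, v⟩ ⟨h1, h2, h3⟩
    simp only at h1 h2 h3
    rw [Metric.mem_closedBall, dist_zero_right, Prod.norm_def]
    refine max_le ?_ ?_
    · rw [pi_norm_le_iff_of_nonneg zero_le_one]
      intro i
      rw [Real.norm_eq_abs, abs_le_one_iff_mul_self_le_one]
      fin_cases i
      · change w 0 * w 0 ≤ 1
        nlinarith [sq_nonneg (w 1)]
      · change w 1 * w 1 ≤ 1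
        nlinarith [sq_nonneg (w 0)]
      · change w 2 * w 2 ≤ 1
        nlinarith [sq_nonneg (w 3)]
      · change w 3 * w 3 ≤ 1
        nlinarith [sq_nonneg (w 2)]
    · rw [pi_norm_le_iff_of_nonneg zero_le_one]
      intro i
      rw [Real.norm_eq_abs, abs_le_one_iff_mul_self_le_one]
      have := Finset.single_le_sum (f := fun i => v i ^ 2) (fun j _ => sq_nonneg (v j))
        (Finset.mem_univ i)
      nlinarith

set_option maxHeartbeats 4000000 in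
theorem Qh_smul (t : ℝ) (w : Fin 4 → ℝ) (v : Fin 7 → ℝ) (c : ℝ) :
    Qh t w (fun i => c * v i) = c ^ 2 * Qh t w v := by
  unfold Qh; ring

set_option maxHeartbeats 4000000 in
theorem Qh_zero (w : Fin 4 → ℝ) (v : Fin 7 → ℝ) (h1 : w 0 ^ 2 + w 1 ^ 2 = 1)
    (h2 : w 2 ^ 2 + w 3 ^ 2 = 1) :
    Qh 0 w v = (2 * v 4 + (-8 * w 3 * v 1 - 2 * w 1 * v 1 + w 0 * v 5) / 4) ^ 2
      + (2 * v 3 + (2 * w 3 * v 0 + 8 * w 1 * v 0 + w 2 * v 2) / 4) ^ 2
      + (v 5 ^ 2 + v 2 ^ 2) / 8 + (v 0 ^ 2 + v 1 ^ 2) / 4 := by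
  unfold Qh
  linear_combination (v 1 ^ 2 - v 5 ^ 2 / 16) * h1 + (v 0 ^ 2 - v 2 ^ 2 / 16) * h2

set_option maxHeartbeats 4000000 in
theorem cont_Qh : Continuous fun x : ℝ × ((Fin 4 → ℝ) × (Fin 7 → ℝ)) => Qh x.1 x.2.1 x.2.2 := by
  unfold Qh
  have ht : Continuous fun x : ℝ × ((Fin 4 → ℝ) × (Fin 7 → ℝ)) => x.1 := continuous_fst
  have hw : ∀ i, Continuous fun x : ℝ × ((Fin 4 → ℝ) × (Fin 7 → ℝ)) => x.2.1 i := fun i =>
    (continuous_apply i).comp (continuous_fst.comp continuous_snd)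
  have hv : ∀ i, Continuous fun x : ℝ × ((Fin 4 → ℝ) × (Fin 7 → ℝ)) => x.2.2 i := fun i =>
    (continuous_apply i).comp (continuous_snd.comp continuous_snd)
  fun_prop

theorem Qh_zero_pos (w : Fin 4 → ℝ) (v : Fin 7 → ℝ) (h1 : w 0 ^ 2 + w 1 ^ 2 = 1)
    (h2 : w 2 ^ 2 + w 3 ^ 2 = 1) (h3 : ∑ i, v i ^ 2 = 1) : 0 < Qh 0 w v + v 6 ^ 2 := by
  rw [Qh_zero w v h1 h2]
  by_contra hneg
  rw [not_lt] at hneg
  set a := 2 * v 4 + (-8 * w 3 * v 1 - 2 * w 1 * v 1 + w 0 * v 5) / 4 with ha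
  set b := 2 * v 3 + (2 * w 3 * v 0 + 8 * w 1 * v 0 + w 2 * v 2) / 4 with hb
  have qa := sq_nonneg a
  have qb := sq_nonneg b
  have q0 := sq_nonneg (v 0)
  have q1 := sq_nonneg (v 1)
  have q2 := sq_nonneg (v 2)
  have q5 := sq_nonneg (v 5)
  have q6 := sq_nonneg (v 6)
  have z0 : v 0 ^ 2 = 0 := by linarith
  have z1 : v 1 ^ 2 = 0 := by linarith
  have z2 : v 2 ^ 2 = 0 := by linarith
  have z5 : v 5 ^ 2 = 0 := by linarith
  have z6 : v 6 ^ 2 = 0 := by linarith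
  have za : a ^ 2 = 0 := by linarith
  have zb : b ^ 2 = 0 := by linarith
  rw [pow_eq_zero_iff two_ne_zero] at z0 z1 z2 z5 z6 za zb
  rw [ha, z1, z5] at za
  rw [hb, z0, z2] at zb
  have z4 : v 4 = 0 := by linarith
  have z3 : v 3 = 0 := by linarith
  have hall : ∀ i : Fin 7, v i ^ 2 = 0 := by
    intro i
    fin_cases i
    · simp [z0]
    · simp [z1]
    · simp [z2]
    · simp [z3]
    · simp [z4]
    · simp [z5]
    · simp [z6]
  rw [Finset.sum_eq_zero (fun i _ => hall i)] at h3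
  exact zero_ne_one h3

theorem exists_t : ∃ t : ℝ, 0 < t ∧ t ≤ 1 ∧ ∀ p ∈ KK 7, 0 < Qh t p.1 p.2 + p.2 6 ^ 2 := by
  have h := (isCompact_KK 7).eventually_forall_of_forall_eventually (x₀ := (0 : ℝ))
    (P := fun t p => 0 < Qh t p.1 p.2 + p.2 6 ^ 2) ?_
  · rw [Metric.eventually_nhds_iff] at h
    obtain ⟨ε, hε, h⟩ := h
    refine ⟨min (ε / 2) 1, lt_min (half_pos hε) one_pos, min_le_right _ _, ?_⟩
    apply h
    rw [dist_zero_right, Real.norm_eq_abs, abs_of_pos (lt_min (half_pos hε) one_pos)]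
    exact (min_le_left _ _).trans_lt (half_lt_self hε)
  · rintro ⟨w, v⟩ ⟨h1, h2, h3⟩
    have hc : Continuous fun x : ℝ × ((Fin 4 → ℝ) × (Fin 7 → ℝ)) =>
        Qh x.1 x.2.1 x.2.2 + x.2.2 6 ^ 2 :=
      cont_Qh.add (((continuous_apply 6).comp (continuous_snd.comp continuous_snd)).pow 2)
    exact hc.continuousAt.eventually (lt_mem_nhds (Qh_zero_pos w v h1 h2 h3))

theorem exists_t_FF : ∃ t : ℝ, ∀ p ∈ KK 7, 0 < FF t 0 p.1 p.2 := by
  obtain ⟨t, ht0, ht1, h⟩ := exists_t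
  refine ⟨t, ?_⟩
  rintro ⟨w, v⟩ ⟨h1, h2, h3⟩
  simp only at h1 h2 h3 ⊢
  set v' : Fin 7 → ℝ := ![v 0, v 1, v 2, v 3 / t, v 4 / t, v 5, v 6] with hv'
  have e : v = ![v' 0, v' 1, v' 2, t * v' 3, t * v' 4, v' 5, v' 6] := by
    funext i
    have ht : t ≠ 0 := ht0.ne'
    fin_cases i
    · rfl
    · rfl
    · rfl
    · change v 3 = t * (v 3 / t); field_simp
    · change v 4 = t * (v 4 / t); field_simp
    · rfl
    · rfl
  have hb := FF_blow t w v'
  rw [← e] at hb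
  rw [hb]
  set S := ∑ i, v' i ^ 2 with hS
  have hSpos : 0 < S := by
    rcases (Finset.sum_nonneg fun i _ => sq_nonneg (v' i)).lt_or_eq with h | h
    · exact h
    · exfalso
      have h0 := (Finset.sum_eq_zero_iff_of_nonneg (fun i _ => sq_nonneg (v' i))).1 h.symm
      have h0' : ∀ i, v' i = 0 := fun i => by
        have := h0 i (Finset.mem_univ i)
        rwa [pow_eq_zero_iff two_ne_zero] at this
      have hv0 : ∀ i : Fin 7, v i ^ 2 = 0 := by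
        intro i
        rw [e]
        fin_cases i <;> simp [h0']
      rw [Finset.sum_eq_zero (fun i _ => hv0 i)] at h3
      exact zero_ne_one h3
  have hq := h (w, fun i => (Real.sqrt S)⁻¹ * v' i) ⟨h1, h2, by
    simp only [mul_pow, ← Finset.mul_sum, inv_pow]
    rw [Real.sq_sqrt hSpos.le, ← hS]
    exact inv_mul_cancel₀ hSpos.ne'⟩
  simp only at hq
  rw [Qh_smul, mul_pow, ← mul_add, inv_pow, Real.sq_sqrt hSpos.le] at hq
  have hq2 : 0 < Qh t w v' + v' 6 ^ 2 := by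
    rcases lt_or_ge 0 (Qh t w v' + v' 6 ^ 2) with h | h
    · exact h
    · exfalso
      have := mul_nonpos_of_nonneg_of_nonpos (inv_nonneg.2 hSpos.le) h
      linarith
  have ht2 : t ^ 2 ≤ 1 := by nlinarith
  have hp : 0 < t ^ 2 * (Qh t w v' + v' 6 ^ 2) := mul_pos (by positivity) hq2
  have h6 : t ^ 2 * v' 6 ^ 2 ≤ 3 * v' 6 ^ 2 :=
    mul_le_mul_of_nonneg_right (by linarith) (sq_nonneg _)
  linarith

theorem FF_near (t : ℝ) (ht : ∀ p ∈ KK 7, 0 < FF t 0 p.1 p.2) :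
    ∀ᶠ y : ℝ × ℝ in 𝓝 0, ∀ p ∈ KK 7, 0 < FF t y p.1 p.2 := by
  refine (isCompact_KK 7).eventually_forall_of_forall_eventually (x₀ := (0 : ℝ × ℝ))
    (P := fun y p => 0 < FF t y p.1 p.2) ?_
  intro p hp
  exact (cont_FF t (0, p) rfl).eventually (lt_mem_nhds (ht p hp))

/-- the metric as a quadratic form -/
noncomputable def gq (t : ℝ) (y : ℝ × ℝ) (w v : Fin 4 → ℝ) : ℝ :=
  ∑ i, ∑ j, ev (rp w y) (ge t i j) * v i * v j

theorem gq_near (t : ℝ) :
    ∀ᶠ y : ℝ × ℝ in 𝓝 0, ∀ p ∈ KK 4, 0 < gq t y p.1 p.2 := by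
  refine (isCompact_KK 4).eventually_forall_of_forall_eventually (x₀ := (0 : ℝ × ℝ))
    (P := fun y p => 0 < gq t y p.1 p.2) ?_
  rintro ⟨w, v⟩ ⟨h1, h2, h3⟩
  have hf : Continuous fun x : (ℝ × ℝ) × ((Fin 4 → ℝ) × (Fin 4 → ℝ)) => x.2.1 :=
    continuous_fst.comp continuous_snd
  have hg : Continuous fun x : (ℝ × ℝ) × ((Fin 4 → ℝ) × (Fin 4 → ℝ)) => x.1 := continuous_fst
  have hv : ∀ i, Continuous fun x : (ℝ × ℝ) × ((Fin 4 → ℝ) × (Fin 4 → ℝ)) => x.2.2 i := fun i =>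
    (continuous_apply i).comp (continuous_snd.comp continuous_snd)
  have hc : Continuous fun x : (ℝ × ℝ) × ((Fin 4 → ℝ) × (Fin 4 → ℝ)) =>
      gq t x.1 x.2.1 x.2.2 := by
    unfold gq
    exact continuous_finsetSum _ fun i _ => continuous_finsetSum _ fun j _ =>
      ((cont_ev hf hg _).mul (hv i)).mul (hv j)
  refine hc.continuousAt.eventually (lt_mem_nhds ?_)
  have e : gq t 0 w v = ∑ i, v i ^ 2 := by
    unfold gq
    have hM : ∀ i j, ev (rp w 0) (ge t i j) = (1 : Matrix (Fin 4) (Fin 4) ℝ) i j := fun i j => by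
      rw [← ME_zero t w]; rfl
    refine Finset.sum_congr rfl fun i _ => ?_
    rw [Finset.sum_eq_single i]
    · rw [hM, Matrix.one_apply_eq]; ring
    · intro j _ hj; rw [hM, Matrix.one_apply_ne (Ne.symm hj)]; ring
    · simp
  simp only at h3 ⊢
  rw [e, h3]; exact one_pos

theorem det_near (t : ℝ) :
    ∀ᶠ y : ℝ × ℝ in 𝓝 0, ∀ p ∈ KK 1, (ME t (rp p.1 y)).det ≠ 0 := by
  refine (isCompact_KK 1).eventually_forall_of_forall_eventually (x₀ := (0 : ℝ × ℝ))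
    (P := fun y p => (ME t (rp p.1 y)).det ≠ 0) ?_
  rintro ⟨w, v⟩ -
  have hf : Continuous fun x : (ℝ × ℝ) × ((Fin 4 → ℝ) × (Fin 1 → ℝ)) => x.2.1 :=
    continuous_fst.comp continuous_snd
  have hg : Continuous fun x : (ℝ × ℝ) × ((Fin 4 → ℝ) × (Fin 1 → ℝ)) => x.1 := continuous_fst
  have hc := (cont_ME hf hg t).matrix_det
  have h0 : (ME t (rp w 0)).det ≠ 0 := by rw [ME_zero]; simp
  exact hc.continuousAt.eventually_ne h0

/-- the constants of the construction -/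
theorem exists_tr : ∃ t r : ℝ, 0 < r ∧ ∀ y : ℝ × ℝ, |y.1| < r → |y.2| < r →
    (∀ p ∈ KK 7, 0 < FF t y p.1 p.2) ∧ (∀ p ∈ KK 4, 0 < gq t y p.1 p.2) ∧
    (∀ p ∈ KK 1, (ME t (rp p.1 y)).det ≠ 0) := by
  obtain ⟨t, ht⟩ := exists_t_FF
  have h := (FF_near t ht).and ((gq_near t).and (det_near t))
  rw [Metric.eventually_nhds_iff] at h
  obtain ⟨r, hr, h⟩ := h
  refine ⟨t, r, hr, fun y h1 h2 => ?_⟩
  apply h
  rw [dist_zero_right, Prod.norm_def]
  exact max_lt (by rwa [Real.norm_eq_abs]) (by rwa [Real.norm_eq_abs])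

end Pool.Agent.helper71.FT
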