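import Pool.Agent.helper71.FT.Pos

/-! Continuity and compactness. -/

namespace Pool.Agent.helper71.FT

open Ex Filter Topology

/-- parameter space: `(y, (w, v))` -/
abbrev XX := (ℝ × ℝ) × ((Fin 4 → ℝ) × (Fin 7 → ℝ))

theorem cont_rp {X : Type*} [TopologicalSpace X] {f : X → (Fin 4 → ℝ)} {g : X → ℝ × ℝ}
    (hf : Continuous f) (hg : Continuous g) : Continuous fun x => rp (f x) (g x) := by
  refine continuous_pi fun i => ?_
  have h : ∀ j : Fin 4, Continuous fun x => f x j := fun j => (continuous_apply j).comp hf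
  fin_cases i
  · exact h 0
  · exact h 1
  · exact h 2
  · exact h 3
  · exact continuous_fst.comp hg
  · exact continuous_snd.comp hg

theorem cont_ev {X : Type*} [TopologicalSpace X] {f : X → (Fin 4 → ℝ)} {g : X → ℝ × ℝ}
    (hf : Continuous f) (hg : Continuous g) (e : Ex) :
    Continuous fun x => ev (rp (f x) (g x)) e :=
  (continuous_ev e).comp (cont_rp hf hg)

theorem cont_Gam {X : Type*} [TopologicalSpace X] {f : X → (Fin 4 → ℝ)} {g : X → ℝ × ℝ}
    (hf : Continuous f) (hg : Continuous g) (t : ℝ) (a k l : Fin 4) :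
    Continuous fun x => GamE t (rp (f x) (g x)) a k l := by
  unfold GamE
  exact (((cont_ev hf hg _).add (cont_ev hf hg _)).sub (cont_ev hf hg _)).div_const 2

theorem cont_Sec {X : Type*} [TopologicalSpace X] {f : X → (Fin 4 → ℝ)} {g : X → ℝ × ℝ}
    (hf : Continuous f) (hg : Continuous g) (t : ℝ) (i k l m : Fin 4) :
    Continuous fun x => SecE t (rp (f x) (g x)) i k l m := by
  unfold SecE
  exact ((((cont_ev hf hg _).add (cont_ev hf hg _)).sub (cont_ev hf hg _)).sub
    (cont_ev hf hg _)).div_const 2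

theorem cont_NN {X : Type*} [TopologicalSpace X] {f : X → (Fin 4 → ℝ)} {g h : X → ℝ × ℝ}
    (hf : Continuous f) (hg : Continuous g) (hh : Continuous h) (t : ℝ) (i j a : Fin 4) :
    Continuous fun x => NN t (f x) (g x) (h x) i j a := by
  unfold NN
  have hgh : Continuous fun x => g x + h x := hg.add hh
  fin_cases a
  · exact (((cont_Gam hf hgh t 0 i j).sub (cont_Gam hf hg t 0 i j)).sub
      (cont_Gam hf hh t 0 i j)).div_const 2
  · exact (((cont_Gam hf hgh t 1 i j).sub (cont_Gam hf hg t 1 i j)).sub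
      (cont_Gam hf hh t 1 i j)).div_const 2
  · exact cont_Gam hf hh t 2 i j
  · exact cont_Gam hf hh t 3 i j

theorem cont_ME {X : Type*} [TopologicalSpace X] {f : X → (Fin 4 → ℝ)} {g : X → ℝ × ℝ}
    (hf : Continuous f) (hg : Continuous g) (t : ℝ) :
    Continuous fun x => ME t (rp (f x) (g x)) := by
  refine continuous_matrix fun i j => ?_
  exact cont_ev hf hg _

theorem cont_inv {X : Type*} [TopologicalSpace X] {f : X → (Fin 4 → ℝ)} {g : X → ℝ × ℝ}
    (hf : Continuous f) (hg : Continuous g) (t : ℝ) (a b : Fin 4) {x₀ : X} (h0 : g x₀ = 0) :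
    ContinuousAt (fun x => (ME t (rp (f x) (g x)))⁻¹ a b) x₀ := by
  have hM := cont_ME hf hg t
  have hdet : ContinuousAt (fun x => ((ME t (rp (f x) (g x))).det)⁻¹) x₀ := by
    refine ContinuousAt.inv₀ hM.matrix_det.continuousAt ?_
    rw [h0, ME_zero]; simp
  have hadj : Continuous fun x => (ME t (rp (f x) (g x))).adjugate a b :=
    hM.matrix_adjugate.matrix_elem a b
  have e : (fun x => (ME t (rp (f x) (g x)))⁻¹ a b) = fun x =>
      ((ME t (rp (f x) (g x))).det)⁻¹ * (ME t (rp (f x) (g x))).adjugate a b := by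
    funext x
    rw [Matrix.inv_def, Ring.inverse_eq_inv']; rfl
  rw [e]
  exact hdet.mul hadj.continuousAt

theorem cont_HH {X : Type*} [TopologicalSpace X] {H : X → Matrix (Fin 4) (Fin 4) ℝ}
    {u v : X → Fin 4 → ℝ} {x₀ : X} (hH : ∀ a b, ContinuousAt (fun x => H x a b) x₀)
    (hu : ∀ a, Continuous fun x => u x a) (hv : ∀ a, Continuous fun x => v x a) :
    ContinuousAt (fun x => HH (H x) (u x) (v x)) x₀ := by
  unfold HH
  refine tendsto_finsetSum _ fun a _ => ?_
  refine tendsto_finsetSum _ fun b _ => ?_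
  exact (hH a b).mul ((hu a).continuousAt.mul (hv b).continuousAt)

theorem cont_RE {X : Type*} [TopologicalSpace X] {f : X → (Fin 4 → ℝ)} {g : X → ℝ × ℝ}
    (hf : Continuous f) (hg : Continuous g) (t : ℝ) (i k l m : Fin 4) {x₀ : X} (h0 : g x₀ = 0) :
    ContinuousAt (fun x => RE t (rp (f x) (g x)) i k l m) x₀ := by
  unfold RE
  exact ((cont_Sec hf hg t i k l m).continuousAt.add
    (cont_HH (fun a b => cont_inv hf hg t a b h0) (fun a => cont_Gam hf hg t a k l)
      (fun a => cont_Gam hf hg t a i m))).sub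
    (cont_HH (fun a b => cont_inv hf hg t a b h0) (fun a => cont_Gam hf hg t a k m)
      (fun a => cont_Gam hf hg t a i l))

theorem cont_FF (t : ℝ) (x₀ : XX) (h0 : x₀.1 = 0) :
    ContinuousAt (fun x : XX => FF t x.1 x.2.1 x.2.2) x₀ := by
  have hf : Continuous fun x : XX => x.2.1 := continuous_fst.comp continuous_snd
  have hg : Continuous fun x : XX => x.1 := continuous_fst
  have hv : ∀ i, Continuous fun x : XX => x.2.2 i := fun i =>
    (continuous_apply i).comp (continuous_snd.comp continuous_snd)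
  have hz : Continuous fun x : XX => ((x.2.2 0, x.2.2 1) : ℝ × ℝ) := (hv 0).prodMk (hv 1)
  have hva : ∀ i, ContinuousAt (fun x : XX => x.2.2 i) x₀ := fun i => (hv i).continuousAt
  have hR : ∀ i k l m, ContinuousAt (fun x : XX => RE t (rp x.2.1 x.1) i k l m) x₀ :=
    fun i k l m => cont_RE hf hg t i k l m h0
  have hS : ∀ i k l m, ContinuousAt
      (fun x : XX => SecE t (rp x.2.1 (x.2.2 0, x.2.2 1)) i k l m) x₀ :=
    fun i k l m => (cont_Sec hf hz t i k l m).continuousAt
  have hN : ∀ i j i' j', ContinuousAt (fun x : XX => HH (ME t (rp x.2.1 x.1))⁻¹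
      (NN t x.2.1 x.1 (x.2.2 0, x.2.2 1) i j) (NN t x.2.1 x.1 (x.2.2 0, x.2.2 1) i' j')) x₀ :=
    fun i j i' j' => cont_HH (fun a b => cont_inv hf hg t a b h0)
      (fun a => cont_NN hf hg hz t i j a) (fun a => cont_NN hf hg hz t i' j' a)
  have hT : ∀ l m, ContinuousAt (fun x : XX => TT t x.2.1 x.1 (x.2.2 0, x.2.2 1) l m) x₀ := by
    intro l m
    unfold TT
    exact ((hS 0 1 l m).add (cont_HH (fun a b => cont_inv hf hg t a b h0)
      (fun a => cont_NN hf hg hz t _ _ a) (fun a => cont_Gam hf hg t a 0 m))).sub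
      (cont_HH (fun a b => cont_inv hf hg t a b h0)
      (fun a => cont_Gam hf hg t a 1 m) (fun a => cont_NN hf hg hz t _ _ a))
  have h2 : ContinuousAt (fun _ : XX => (2 : ℝ)) x₀ := continuousAt_const
  unfold FF
  exact (((((((hS 0 1 0 1).add (hN 0 1 0 1)).sub (hN 1 1 0 0)).add
    (h2.mul (((((hT 0 2).mul (hva 2)).add ((hT 0 3).mul (hva 3))).add
      ((hT 1 2).mul (hva 4))).add ((hT 1 3).mul (hva 5))))).add
    ((h2.mul (hR 0 1 2 3)).mul (((hva 2).mul (hva 5)).sub ((hva 3).mul (hva 4))))).add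
    (((((((((((hR 0 2 0 2).mul ((hva 2).pow 2)).add ((hR 0 3 0 3).mul ((hva 3).pow 2))).add
      ((hR 1 2 1 2).mul ((hva 4).pow 2))).add ((hR 1 3 1 3).mul ((hva 5).pow 2))).add
      (((h2.mul (hR 0 2 0 3)).mul (hva 2)).mul (hva 3))).add
      (((h2.mul (hR 0 2 1 2)).mul (hva 2)).mul (hva 4))).add
      (((h2.mul (hR 0 2 1 3)).mul (hva 2)).mul (hva 5))).add
      (((h2.mul (hR 0 3 1 2)).mul (hva 3)).mul (hva 4))).add
      (((h2.mul (hR 0 3 1 3)).mul (hva 3)).mul (hva 5))).add
      (((h2.mul (hR 1 2 1 3)).mul (hva 4)).mul (hva 5)))).add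
    ((h2.mul (hva 6)).mul (((((hR 0 2 2 3).mul (hva 2)).add ((hR 0 3 2 3).mul (hva 3))).add
      ((hR 1 2 2 3).mul (hva 4))).add ((hR 1 3 2 3).mul (hva 5))))).add
    ((hR 2 3 2 3).mul ((hva 6).pow 2))

end Pool.Agent.helper71.FT
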