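import Pool.Agent.helper71.FT.Metric

/-! The curvature form near the flat torus. -/

namespace Pool.Agent.helper71.FT

open Ex

/-- cosines, sines and normal coordinates -/
def rp (w : Fin 4 → ℝ) (y : ℝ × ℝ) : Fin 6 → ℝ := ![w 0, w 1, w 2, w 3, y.1, y.2]

theorem hom2 (t : ℝ) (w : Fin 4 → ℝ) (y : ℝ × ℝ) (c : ℝ) :
    (GamE t (rp w (c * y.1, c * y.2)) 0 0 0 = c ^ 2 * GamE t (rp w y) 0 0 0) ∧
    (GamE t (rp w (c * y.1, c * y.2)) 0 0 1 = c ^ 2 * GamE t (rp w y) 0 0 1) ∧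
    (GamE t (rp w (c * y.1, c * y.2)) 0 1 1 = c ^ 2 * GamE t (rp w y) 0 1 1) ∧
    (GamE t (rp w (c * y.1, c * y.2)) 1 0 0 = c ^ 2 * GamE t (rp w y) 1 0 0) ∧
    (GamE t (rp w (c * y.1, c * y.2)) 1 0 1 = c ^ 2 * GamE t (rp w y) 1 0 1) ∧
    (GamE t (rp w (c * y.1, c * y.2)) 1 1 1 = c ^ 2 * GamE t (rp w y) 1 1 1) := by
  refine ⟨?_, ?_, ?_, ?_, ?_, ?_⟩ <;>
  · simp [GamE, ge, qd, A22, A23, A33, B22, B23, B33, C22, C23, C33, D, ev, rp, a1, a2, b2, b3]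
    ring

theorem hom1 (t : ℝ) (w : Fin 4 → ℝ) (y : ℝ × ℝ) (c : ℝ) :
    (GamE t (rp w (c * y.1, c * y.2)) 2 0 0 = c * GamE t (rp w y) 2 0 0) ∧
    (GamE t (rp w (c * y.1, c * y.2)) 2 0 1 = c * GamE t (rp w y) 2 0 1) ∧
    (GamE t (rp w (c * y.1, c * y.2)) 2 1 1 = c * GamE t (rp w y) 2 1 1) ∧
    (GamE t (rp w (c * y.1, c * y.2)) 3 0 0 = c * GamE t (rp w y) 3 0 0) ∧
    (GamE t (rp w (c * y.1, c * y.2)) 3 0 1 = c * GamE t (rp w y) 3 0 1) ∧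
    (GamE t (rp w (c * y.1, c * y.2)) 3 1 1 = c * GamE t (rp w y) 3 1 1) := by
  refine ⟨?_, ?_, ?_, ?_, ?_, ?_⟩ <;>
  · simp [GamE, ge, qd, A22, A23, A33, B22, B23, B33, C22, C23, C33, D, ev, rp, a1, a2, b2, b3]
    ring

theorem homS (t : ℝ) (w : Fin 4 → ℝ) (y : ℝ × ℝ) (c : ℝ) :
    (SecE t (rp w (c * y.1, c * y.2)) 0 1 0 1 = c ^ 2 * SecE t (rp w y) 0 1 0 1) ∧
    (SecE t (rp w (c * y.1, c * y.2)) 0 1 0 2 = c * SecE t (rp w y) 0 1 0 2) ∧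
    (SecE t (rp w (c * y.1, c * y.2)) 0 1 0 3 = c * SecE t (rp w y) 0 1 0 3) ∧
    (SecE t (rp w (c * y.1, c * y.2)) 0 1 1 2 = c * SecE t (rp w y) 0 1 1 2) ∧
    (SecE t (rp w (c * y.1, c * y.2)) 0 1 1 3 = c * SecE t (rp w y) 0 1 1 3) := by
  refine ⟨?_, ?_, ?_, ?_, ?_⟩ <;>
  · simp [SecE, ge, qd, A22, A23, A33, B22, B23, B33, C22, C23, C33, D, ev, rp, a1, a2, b2, b3]
    ring

/-- first Christoffel symbols multiplied by a scalar absorbed in the second argument `z` -/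
noncomputable def NN (t : ℝ) (w : Fin 4 → ℝ) (y z : ℝ × ℝ) (i j : Fin 4) : Fin 4 → ℝ :=
  ![(GamE t (rp w (y + z)) 0 i j - GamE t (rp w y) 0 i j - GamE t (rp w z) 0 i j) / 2,
    (GamE t (rp w (y + z)) 1 i j - GamE t (rp w y) 1 i j - GamE t (rp w z) 1 i j) / 2,
    GamE t (rp w z) 2 i j, GamE t (rp w z) 3 i j]

theorem NN_aux (t : ℝ) (w : Fin 4 → ℝ) (y : ℝ × ℝ) (c : ℝ) (i j : Fin 4)
    (h0 : ∀ c : ℝ, GamE t (rp w (c * y.1, c * y.2)) 0 i j = c ^ 2 * GamE t (rp w y) 0 i j)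
    (h1 : ∀ c : ℝ, GamE t (rp w (c * y.1, c * y.2)) 1 i j = c ^ 2 * GamE t (rp w y) 1 i j)
    (h2 : ∀ c : ℝ, GamE t (rp w (c * y.1, c * y.2)) 2 i j = c * GamE t (rp w y) 2 i j)
    (h3 : ∀ c : ℝ, GamE t (rp w (c * y.1, c * y.2)) 3 i j = c * GamE t (rp w y) 3 i j) :
    NN t w y (c * y.1, c * y.2) i j = fun a => c * GamE t (rp w y) a i j := by
  have e : y + (c * y.1, c * y.2) = ((1 + c) * y.1, (1 + c) * y.2) := by
    ext <;> simp <;> ring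
  funext a
  unfold NN
  rw [e, h0, h0, h1, h1, h2, h3]
  fin_cases a
  · simp; ring
  · simp; ring
  · simp
  · simp

theorem NN_eq (t : ℝ) (w : Fin 4 → ℝ) (y : ℝ × ℝ) (c : ℝ) :
    (NN t w y (c * y.1, c * y.2) 0 0 = fun a => c * GamE t (rp w y) a 0 0) ∧
    (NN t w y (c * y.1, c * y.2) 0 1 = fun a => c * GamE t (rp w y) a 0 1) ∧
    (NN t w y (c * y.1, c * y.2) 1 1 = fun a => c * GamE t (rp w y) a 1 1) := by
  refine ⟨?_, ?_, ?_⟩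
  · exact NN_aux t w y c 0 0 (fun c => (hom2 t w y c).1) (fun c => (hom2 t w y c).2.2.2.1)
      (fun c => (hom1 t w y c).1) (fun c => (hom1 t w y c).2.2.2.1)
  · exact NN_aux t w y c 0 1 (fun c => (hom2 t w y c).2.1) (fun c => (hom2 t w y c).2.2.2.2.1)
      (fun c => (hom1 t w y c).2.1) (fun c => (hom1 t w y c).2.2.2.2.1)
  · exact NN_aux t w y c 1 1 (fun c => (hom2 t w y c).2.2.1) (fun c => (hom2 t w y c).2.2.2.2.2)
      (fun c => (hom1 t w y c).2.2.1) (fun c => (hom1 t w y c).2.2.2.2.2)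

/-- the mixed curvature terms, linear in `z` -/
noncomputable def TT (t : ℝ) (w : Fin 4 → ℝ) (y z : ℝ × ℝ) (l m : Fin 4) : ℝ :=
  SecE t (rp w z) 0 1 l m
    + HH (ME t (rp w y))⁻¹ (NN t w y z (min 1 l) (max 1 l)) (fun b => GamE t (rp w y) b 0 m)
    - HH (ME t (rp w y))⁻¹ (fun a => GamE t (rp w y) a 1 m) (NN t w y z 0 l)

/-- the rescaled curvature form -/
noncomputable def FF (t : ℝ) (y : ℝ × ℝ) (w : Fin 4 → ℝ) (v : Fin 7 → ℝ) : ℝ :=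
  (SecE t (rp w (v 0, v 1)) 0 1 0 1
    + HH (ME t (rp w y))⁻¹ (NN t w y (v 0, v 1) 0 1) (NN t w y (v 0, v 1) 0 1)
    - HH (ME t (rp w y))⁻¹ (NN t w y (v 0, v 1) 1 1) (NN t w y (v 0, v 1) 0 0))
  + 2 * (TT t w y (v 0, v 1) 0 2 * v 2 + TT t w y (v 0, v 1) 0 3 * v 3
    + TT t w y (v 0, v 1) 1 2 * v 4 + TT t w y (v 0, v 1) 1 3 * v 5)
  + 2 * RE t (rp w y) 0 1 2 3 * (v 2 * v 5 - v 3 * v 4)
  + (RE t (rp w y) 0 2 0 2 * v 2 ^ 2 + RE t (rp w y) 0 3 0 3 * v 3 ^ 2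
    + RE t (rp w y) 1 2 1 2 * v 4 ^ 2 + RE t (rp w y) 1 3 1 3 * v 5 ^ 2
    + 2 * RE t (rp w y) 0 2 0 3 * v 2 * v 3 + 2 * RE t (rp w y) 0 2 1 2 * v 2 * v 4
    + 2 * RE t (rp w y) 0 2 1 3 * v 2 * v 5 + 2 * RE t (rp w y) 0 3 1 2 * v 3 * v 4
    + 2 * RE t (rp w y) 0 3 1 3 * v 3 * v 5 + 2 * RE t (rp w y) 1 2 1 3 * v 4 * v 5)
  + 2 * v 6 * (RE t (rp w y) 0 2 2 3 * v 2 + RE t (rp w y) 0 3 2 3 * v 3
    + RE t (rp w y) 1 2 2 3 * v 4 + RE t (rp w y) 1 3 2 3 * v 5)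
  + RE t (rp w y) 2 3 2 3 * v 6 ^ 2

theorem TT_eq (t : ℝ) (w : Fin 4 → ℝ) (y : ℝ × ℝ) (c : ℝ) :
    (TT t w y (c * y.1, c * y.2) 0 2 = c * RE t (rp w y) 0 1 0 2) ∧
    (TT t w y (c * y.1, c * y.2) 0 3 = c * RE t (rp w y) 0 1 0 3) ∧
    (TT t w y (c * y.1, c * y.2) 1 2 = c * RE t (rp w y) 0 1 1 2) ∧
    (TT t w y (c * y.1, c * y.2) 1 3 = c * RE t (rp w y) 0 1 1 3) := by
  obtain ⟨n00, n01, n11⟩ := NN_eq t w y c
  obtain ⟨-, s02, s03, s12, s13⟩ := homS t w y c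
  have h10 : (fun a => GamE t (rp w y) a 1 0) = fun a => GamE t (rp w y) a 0 1 :=
    funext fun a => GamE_symm t _ a 1 0
  refine ⟨?_, ?_, ?_, ?_⟩
  · unfold TT RE
    rw [show min (1 : Fin 4) 0 = 0 from rfl, show max (1 : Fin 4) 0 = 1 from rfl, n01, n00, s02,
      HH_smul_left, HH_smul_right, h10]; ring
  · unfold TT RE
    rw [show min (1 : Fin 4) 0 = 0 from rfl, show max (1 : Fin 4) 0 = 1 from rfl, n01, n00, s03,
      HH_smul_left, HH_smul_right, h10]; ring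
  · unfold TT RE
    rw [show min (1 : Fin 4) 1 = 1 from rfl, show max (1 : Fin 4) 1 = 1 from rfl, n01, n11, s12,
      HH_smul_left, HH_smul_right]; ring
  · unfold TT RE
    rw [show min (1 : Fin 4) 1 = 1 from rfl, show max (1 : Fin 4) 1 = 1 from rfl, n01, n11, s13,
      HH_smul_left, HH_smul_right]; ring

theorem FF_eq (t : ℝ) (w : Fin 4 → ℝ) (y : ℝ × ℝ) (u v : Fin 4 → ℝ)
    (P01 P02 P03 P12 P13 P23 : ℝ)
    (e01 : P01 = u 0 * v 1 - u 1 * v 0) (e02 : P02 = u 0 * v 2 - u 2 * v 0)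
    (e03 : P03 = u 0 * v 3 - u 3 * v 0) (e12 : P12 = u 1 * v 2 - u 2 * v 1)
    (e13 : P13 = u 1 * v 3 - u 3 * v 1) (e23 : P23 = u 2 * v 3 - u 3 * v 2) :
    ∑ i, ∑ k, ∑ l, ∑ m, RE t (rp w y) i k l m * u i * v k * u l * v m =
      FF t y w ![P01 * y.1, P01 * y.2, P02, P03, P12, P13, P23] := by
  rw [pair_sum (RE t (rp w y)) (RE_anti1 t _) (RE_anti2 t _) (RE_pair t _) u v P01 P02 P03 P12 P13
    P23 e01 e02 e03 e12 e13 e23]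
  obtain ⟨n00, n01, n11⟩ := NN_eq t w y P01
  obtain ⟨s01, -⟩ := homS t w y P01
  obtain ⟨t02, t03, t12, t13⟩ := TT_eq t w y P01
  have hpl : P01 * P23 = P02 * P13 - P03 * P12 := by
    rw [e01, e02, e03, e12, e13, e23]; ring
  have h10 : (fun a => GamE t (rp w y) a 1 0) = fun a => GamE t (rp w y) a 0 1 :=
    funext fun a => GamE_symm t _ a 1 0
  have hR : RE t (rp w y) 0 1 0 1 * P01 ^ 2 = SecE t (rp w (P01 * y.1, P01 * y.2)) 0 1 0 1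
    + HH (ME t (rp w y))⁻¹ (NN t w y (P01 * y.1, P01 * y.2) 0 1)
      (NN t w y (P01 * y.1, P01 * y.2) 0 1)
    - HH (ME t (rp w y))⁻¹ (NN t w y (P01 * y.1, P01 * y.2) 1 1)
      (NN t w y (P01 * y.1, P01 * y.2) 0 0) := by
    rw [n00, n01, n11, s01, HH_smul_left, HH_smul_right, HH_smul_left, HH_smul_right]
    unfold RE
    rw [h10]; ring
  unfold FF
  simp only [Matrix.cons_val_zero, Matrix.cons_val_one, Matrix.cons_val]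
  rw [t02, t03, t12, t13, hR, hpl]
  ring

end Pool.Agent.helper71.FT
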