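import Mathlib

/-! Christoffel symbols and curvature of a coordinate metric, and their behaviour under
pull-back by a map acting separately on each coordinate. -/

namespace Pool.Agent.helper71.FT

abbrev Met := Fin 4 → Fin 4 → (Fin 4 → ℝ) → ℝ

/-- Christoffel symbols of the first kind -/
noncomputable def Gam (g : Met) (a k l : Fin 4) (x : Fin 4 → ℝ) : ℝ :=
  (fderiv ℝ (g l a) x (Pi.single k 1) + fderiv ℝ (g k a) x (Pi.single l 1)
          - fderiv ℝ (g k l) x (Pi.single a 1)) / 2

/-- second derivative part of the curvature -/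
noncomputable def Sec (g : Met) (i k l m : Fin 4) (x : Fin 4 → ℝ) : ℝ :=
          (fderiv ℝ (fun y => fderiv ℝ (g i m) y (Pi.single k 1)) x (Pi.single l 1)
            + fderiv ℝ (fun y => fderiv ℝ (g k l) y (Pi.single i 1)) x (Pi.single m 1)
            - fderiv ℝ (fun y => fderiv ℝ (g i l) y (Pi.single k 1)) x (Pi.single m 1)
            - fderiv ℝ (fun y => fderiv ℝ (g k m) y (Pi.single i 1)) x (Pi.single l 1)) / 2

/-- curvature tensor with all indices down -/
noncomputable def Riem (g : Met) (i k l m : Fin 4) (x : Fin 4 → ℝ) : ℝ :=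
  Sec g i k l m x
          + ∑ a, ∑ b, (Matrix.of fun p q => g p q x)⁻¹ a b *
              (Gam g a k l x * Gam g b i m x - Gam g a k m x * Gam g b i l x)

/-- differentiability together with the value of a partial derivative -/
structure HasPD (k : Fin 4) (f : (Fin 4 → ℝ) → ℝ) (x : Fin 4 → ℝ) (v : ℝ) : Prop where
  diff : DifferentiableAt ℝ f x
  val : fderiv ℝ f x (Pi.single k 1) = v

theorem HasPD.mul {k : Fin 4} {f g : (Fin 4 → ℝ) → ℝ} {x : Fin 4 → ℝ} {v w : ℝ}
    (hf : HasPD k f x v) (hg : HasPD k g x w) :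
    HasPD k (fun y => f y * g y) x (v * g x + f x * w) := by
  refine ⟨hf.diff.mul hg.diff, ?_⟩
  rw [fderiv_fun_mul hf.diff hg.diff]
  simp only [add_apply, smul_apply, smul_eq_mul, hf.val, hg.val]
  ring

theorem HasPD.add {k : Fin 4} {f g : (Fin 4 → ℝ) → ℝ} {x : Fin 4 → ℝ} {v w : ℝ}
    (hf : HasPD k f x v) (hg : HasPD k g x w) :
    HasPD k (fun y => f y + g y) x (v + w) := by
  refine ⟨hf.diff.add hg.diff, ?_⟩
  rw [fderiv_fun_add hf.diff hg.diff]
  simp only [add_apply, hf.val, hg.val]

theorem HasPD.const (k : Fin 4) (c : ℝ) (x : Fin 4 → ℝ) : HasPD k (fun _ => c) x 0 :=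
  ⟨differentiableAt_const c, by simp⟩

/-- Kronecker delta -/
def dl (k i : Fin 4) : ℝ := if k = i then 1 else 0

theorem HasPD.coord (k i : Fin 4) {u u' : ℝ → ℝ} (h : ∀ s, HasDerivAt u (u' s) s)
    (x : Fin 4 → ℝ) : HasPD k (fun y => u (y i)) x (dl k i * u' (x i)) := by
  have h1 : HasFDerivAt (fun y : Fin 4 → ℝ => y i)
      (ContinuousLinearMap.proj (R := ℝ) i : (Fin 4 → ℝ) →L[ℝ] ℝ) x :=
    (ContinuousLinearMap.proj (R := ℝ) i : (Fin 4 → ℝ) →L[ℝ] ℝ).hasFDerivAt
  have h2 := (h (x i)).comp_hasFDerivAt x h1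
  refine ⟨h2.differentiableAt, ?_⟩
  have h3 : fderiv ℝ (fun y : Fin 4 → ℝ => u (y i)) x
    = u' (x i) • (ContinuousLinearMap.proj (R := ℝ) i : (Fin 4 → ℝ) →L[ℝ] ℝ) := h2.fderiv
  rw [h3]
  simp only [smul_apply, ContinuousLinearMap.proj_apply, smul_eq_mul, dl]
  by_cases hk : k = i
  · subst hk; simp
  · have : (Pi.single k (1 : ℝ) : Fin 4 → ℝ) i = 0 := by
      rw [Pi.single_apply, if_neg (fun h => hk h.symm)]
    rw [this]; simp [hk]

variable (φ d d' d'' : Fin 4 → ℝ → ℝ)

theorem HasPD.pull (hφ : ∀ i s, HasDerivAt (φ i) (d i s) s) (k : Fin 4)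
    {F : (Fin 4 → ℝ) → ℝ} (hF : Differentiable ℝ F) (x : Fin 4 → ℝ) :
    HasPD k (fun y => F (fun i => φ i (y i))) x
      (d k (x k) * fderiv ℝ F (fun i => φ i (x i)) (Pi.single k 1)) := by
  have h1 : HasFDerivAt (fun (y : Fin 4 → ℝ) (i : Fin 4) => φ i (y i))
      (ContinuousLinearMap.pi fun i =>
        d i (x i) • (ContinuousLinearMap.proj (R := ℝ) i : (Fin 4 → ℝ) →L[ℝ] ℝ)) x := by
    rw [hasFDerivAt_pi]
    intro i
    have h1 : HasFDerivAt (fun y : Fin 4 → ℝ => y i)
      (ContinuousLinearMap.proj (R := ℝ) i : (Fin 4 → ℝ) →L[ℝ] ℝ) x :=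
      (ContinuousLinearMap.proj (R := ℝ) i : (Fin 4 → ℝ) →L[ℝ] ℝ).hasFDerivAt
    exact (hφ i (x i)).comp_hasFDerivAt x h1
  have h2 := (hF (fun i => φ i (x i))).hasFDerivAt.comp x h1
  refine ⟨h2.differentiableAt, ?_⟩
  have h3 : fderiv ℝ (fun y : Fin 4 → ℝ => F (fun i => φ i (y i))) x = _ := h2.fderiv
  rw [h3]
  have h4 : (ContinuousLinearMap.pi fun i =>
        d i (x i) • (ContinuousLinearMap.proj (R := ℝ) i : (Fin 4 → ℝ) →L[ℝ] ℝ))
        (Pi.single k (1 : ℝ)) = d k (x k) • (Pi.single k (1 : ℝ) : Fin 4 → ℝ) := by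
    ext i
    simp only [ContinuousLinearMap.coe_pi', smul_apply, ContinuousLinearMap.proj_apply,
      Pi.smul_apply, smul_eq_mul]
    by_cases hk : k = i
    · subst hk; simp
    · rw [Pi.single_apply, if_neg (fun h => hk h.symm)]; simp
  rw [ContinuousLinearMap.comp_apply, h4, map_smul, smul_eq_mul]

/-- the pulled back metric -/
noncomputable def pg (G : Met) : Met := fun i j x =>
  d i (x i) * d j (x j) * G i j (fun i => φ i (x i))

variable {φ d d' d''}

theorem pd1_pg (hφ : ∀ i s, HasDerivAt (φ i) (d i s) s) (hd : ∀ i s, HasDerivAt (d i) (d' i s) s)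
    (G : Met) (hG : ∀ i j, Differentiable ℝ (G i j)) (i j k : Fin 4) (x : Fin 4 → ℝ) :
    fderiv ℝ (pg φ d G i j) x (Pi.single k 1) =
      dl k i * (d' i (x i) * d j (x j) * G i j (fun i => φ i (x i)))
      + dl k j * (d i (x i) * d' j (x j) * G i j (fun i => φ i (x i)))
      + d i (x i) * d j (x j) * d k (x k) *
        fderiv ℝ (G i j) (fun i => φ i (x i)) (Pi.single k 1) := by
  have h := ((HasPD.coord k i (hd i) x).mul (HasPD.coord k j (hd j) x)).mul
    (HasPD.pull φ d hφ k (hG i j) x)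
  have h2 := h.val
  unfold pg
  rw [h2]; ring

theorem pd2_pg (hφ : ∀ i s, HasDerivAt (φ i) (d i s) s) (hd : ∀ i s, HasDerivAt (d i) (d' i s) s)
    (hd' : ∀ i s, HasDerivAt (d' i) (d'' i s) s)
    (G : Met) (hG : ∀ i j, Differentiable ℝ (G i j))
    (hG1 : ∀ i j k, Differentiable ℝ (fun X => fderiv ℝ (G i j) X (Pi.single k 1)))
    (i j k l : Fin 4) (x : Fin 4 → ℝ) :
    fderiv ℝ (fun y => fderiv ℝ (pg φ d G i j) y (Pi.single k 1)) x (Pi.single l 1) =
      dl k i * (dl l i * d'' i (x i) * d j (x j) * G i j (fun i => φ i (x i))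
        + d' i (x i) * (dl l j * d' j (x j)) * G i j (fun i => φ i (x i))
        + d' i (x i) * d j (x j) * (d l (x l) *
          fderiv ℝ (G i j) (fun i => φ i (x i)) (Pi.single l 1)))
      + dl k j * (dl l i * d' i (x i) * d' j (x j) * G i j (fun i => φ i (x i))
        + d i (x i) * (dl l j * d'' j (x j)) * G i j (fun i => φ i (x i))
        + d i (x i) * d' j (x j) * (d l (x l) *
          fderiv ℝ (G i j) (fun i => φ i (x i)) (Pi.single l 1)))
      + ((dl l i * d' i (x i) * d j (x j) + d i (x i) * (dl l j * d' j (x j))) * d k (x k)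
          + d i (x i) * d j (x j) * (dl l k * d' k (x k))) *
        fderiv ℝ (G i j) (fun i => φ i (x i)) (Pi.single k 1)
      + d i (x i) * d j (x j) * d k (x k) * (d l (x l) *
        fderiv ℝ (fun X => fderiv ℝ (G i j) X (Pi.single k 1)) (fun i => φ i (x i))
          (Pi.single l 1)) := by
  have e : (fun y => fderiv ℝ (pg φ d G i j) y (Pi.single k 1)) = fun x =>
      dl k i * (d' i (x i) * d j (x j) * G i j (fun i => φ i (x i)))
      + dl k j * (d i (x i) * d' j (x j) * G i j (fun i => φ i (x i)))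
      + d i (x i) * d j (x j) * d k (x k) *
        fderiv ℝ (G i j) (fun i => φ i (x i)) (Pi.single k 1) := by
    funext y
    exact pd1_pg hφ hd G hG i j k y
  rw [e]
  have hGp := HasPD.pull φ d hφ l (hG i j) x
  have hG1p := HasPD.pull φ d hφ l (hG1 i j k) x
  have hdi := HasPD.coord l i (hd i) x
  have hdj := HasPD.coord l j (hd j) x
  have hdk := HasPD.coord l k (hd k) x
  have hdi' := HasPD.coord l i (hd' i) x
  have hdj' := HasPD.coord l j (hd' j) x
  have h := (((HasPD.const l (dl k i) x).mul ((hdi'.mul hdj).mul hGp)).add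
    ((HasPD.const l (dl k j) x).mul ((hdi.mul hdj').mul hGp))).add
    (((hdi.mul hdj).mul hdk).mul hG1p)
  rw [h.val]; ring

set_option maxHeartbeats 4000000 in
theorem alg_pull (h : Fin 4 → Fin 4 → ℝ) (h1 : Fin 4 → Fin 4 → Fin 4 → ℝ)
    (h2 : Fin 4 → Fin 4 → Fin 4 → Fin 4 → ℝ) (D D' D'' : Fin 4 → ℝ) (i k l m : Fin 4)
    (g : Fin 4 → Fin 4 → ℝ) (hg : ∀ i j, g i j = h i j + h j i)
    (g1 : Fin 4 → Fin 4 → Fin 4 → ℝ) (hg1 : ∀ k i j, g1 k i j = h1 k i j + h1 k j i)
    (g2 : Fin 4 → Fin 4 → Fin 4 → Fin 4 → ℝ) (hg2 : ∀ l k i j, g2 l k i j = h2 l k i j + h2 l k j i)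
    (S : Fin 4 → Fin 4 → Fin 4 → Fin 4 → ℝ)
    (hS : ∀ i j k l, S l k i j = dl k i * (dl l i * D'' i * D j * g i j
        + D' i * (dl l j * D' j) * g i j
        + D' i * D j * (D l * g1 l i j))
      + dl k j * (dl l i * D' i * D' j * g i j
        + D i * (dl l j * D'' j) * g i j
        + D i * D' j * (D l * g1 l i j))
      + ((dl l i * D' i * D j + D i * (dl l j * D' j)) * D k
          + D i * D j * (dl l k * D' k)) * g1 k i j
      + D i * D j * D k * (D l * g2 l k i j))
    (Γ : Fin 4 → Fin 4 → Fin 4 → ℝ) (hΓ : ∀ a k l, Γ a k l = (g1 k l a + g1 l k a - g1 a k l) / 2) :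
    (S l k i m + S m i k l - S m k i l - S l i k m) / 2
      + (dl i m * D' i * (D k * D l * Γ i k l) + dl k l * D' k * (D i * D m * Γ k i m)
        + dl k l * D' k * (dl i m * D' i) * g k i)
      - (dl i l * D' i * (D k * D m * Γ i k m) + dl k m * D' k * (D i * D l * Γ k i l)
        + dl k m * D' k * (dl i l * D' i) * g k i)
      = D i * D k * D l * D m * ((g2 l k i m + g2 m i k l - g2 m k i l - g2 l i k m) / 2) := by
  simp only [hS, hΓ, hg, hg1, hg2, dl]
  by_cases hik : i = k
  · subst hik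
    by_cases hil : i = l
    · subst hil
      by_cases him : i = m
      · subst him
        simp only [if_true]; ring
      · simp only [if_true, if_neg him, if_neg (Ne.symm him)]; ring
    · by_cases him : i = m
      · subst him
        simp only [if_true, if_neg hil, if_neg (Ne.symm hil)]; ring
      · by_cases hlm : l = m
        · subst hlm
          simp only [if_true, if_neg hil, if_neg (Ne.symm hil)]; ring
        · simp only [if_true, if_neg hil, if_neg (Ne.symm hil), if_neg him, if_neg (Ne.symm him),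
            if_neg hlm, if_neg (Ne.symm hlm)]; ring
  · by_cases hil : i = l
    · subst hil
      by_cases him : i = m
      · subst him
        simp only [if_true, if_neg hik, if_neg (Ne.symm hik)]; ring
      · by_cases hkm : k = m
        · subst hkm
          simp only [if_true, if_neg hik, if_neg (Ne.symm hik)]; ring
        · simp only [if_true, if_neg hik, if_neg (Ne.symm hik), if_neg him, if_neg (Ne.symm him),
            if_neg hkm, if_neg (Ne.symm hkm)]; ring
    · by_cases him : i = m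
      · subst him
        by_cases hkl : k = l
        · subst hkl
          simp only [if_true, if_neg hik, if_neg (Ne.symm hik)]; ring
        · simp only [if_true, if_neg hik, if_neg (Ne.symm hik), if_neg hil, if_neg (Ne.symm hil),
            if_neg hkl, if_neg (Ne.symm hkl)]; ring
      · by_cases hkl : k = l
        · subst hkl
          by_cases hkm : k = m
          · subst hkm
            simp only [if_true, if_neg hik, if_neg (Ne.symm hik)]; ring
          · simp only [if_true, if_neg hik, if_neg (Ne.symm hik), if_neg him, if_neg (Ne.symm him),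
              if_neg hkm, if_neg (Ne.symm hkm)]; ring
        · by_cases hkm : k = m
          · subst hkm
            simp only [if_true, if_neg hik, if_neg (Ne.symm hik), if_neg hil, if_neg (Ne.symm hil),
              if_neg hkl, if_neg (Ne.symm hkl)]; ring
          · by_cases hlm : l = m
            · subst hlm
              simp only [if_true, if_neg hik, if_neg (Ne.symm hik), if_neg hil,
                if_neg (Ne.symm hil), if_neg hkl, if_neg (Ne.symm hkl)]; ring
            · simp only [if_neg hik, if_neg (Ne.symm hik), if_neg hil,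
                if_neg (Ne.symm hil), if_neg hkl, if_neg (Ne.symm hkl), if_neg him,
                if_neg (Ne.symm him), if_neg hkm, if_neg (Ne.symm hkm), if_neg hlm,
                if_neg (Ne.symm hlm)]; ring

theorem alg_gam (h : Fin 4 → Fin 4 → ℝ) (h1 : Fin 4 → Fin 4 → Fin 4 → ℝ)
    (D D' : Fin 4 → ℝ) (a k l : Fin 4)
    (g : Fin 4 → Fin 4 → ℝ) (hg : ∀ i j, g i j = h i j + h j i)
    (g1 : Fin 4 → Fin 4 → Fin 4 → ℝ) (hg1 : ∀ k i j, g1 k i j = h1 k i j + h1 k j i)
    (S : Fin 4 → Fin 4 → Fin 4 → ℝ)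
    (hS : ∀ i j k, S k i j = dl k i * (D' i * D j * g i j) + dl k j * (D i * D' j * g i j)
      + D i * D j * D k * g1 k i j) :
    (S k l a + S l k a - S a k l) / 2 =
      D a * (D k * D l * ((g1 k l a + g1 l k a - g1 a k l) / 2) + dl k l * D' k * g k a) := by
  simp only [hS, hg, hg1, dl]
  by_cases hak : a = k
  · subst hak
    by_cases hal : a = l
    · subst hal
      simp only [if_true]; ring
    · simp only [if_true, if_neg hal, if_neg (Ne.symm hal)]; ring
  · by_cases hal : a = l
    · subst hal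
      simp only [if_true, if_neg hak, if_neg (Ne.symm hak)]; ring
    · by_cases hkl : k = l
      · subst hkl
        simp only [if_true, if_neg hak, if_neg (Ne.symm hak)]; ring
      · simp only [if_neg hak, if_neg (Ne.symm hak), if_neg hal, if_neg (Ne.symm hal),
          if_neg hkl, if_neg (Ne.symm hkl)]; ring

theorem gam_pg (hφ : ∀ i s, HasDerivAt (φ i) (d i s) s) (hd : ∀ i s, HasDerivAt (d i) (d' i s) s)
    (G : Met) (hG : ∀ i j, Differentiable ℝ (G i j)) (hs : ∀ i j, G i j = G j i)
    (a k l : Fin 4) (x : Fin 4 → ℝ) :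
    Gam (pg φ d G) a k l x =
      d a (x a) * (d k (x k) * d l (x l) * Gam G a k l (fun i => φ i (x i))
        + dl k l * d' k (x k) * G k a (fun i => φ i (x i))) := by
  unfold Gam
  exact alg_gam (fun i j => G i j (fun i => φ i (x i)) / 2)
    (fun k i j => fderiv ℝ (G i j) (fun i => φ i (x i)) (Pi.single k 1) / 2)
    (fun i => d i (x i)) (fun i => d' i (x i)) a k l
    (fun i j => G i j (fun i => φ i (x i)))
    (fun i j => by rw [hs j i]; ring)
    (fun k i j => fderiv ℝ (G i j) (fun i => φ i (x i)) (Pi.single k 1))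
    (fun k i j => by rw [hs j i]; ring)
    (fun k i j => fderiv ℝ (pg φ d G i j) x (Pi.single k 1))
    (fun i j k => pd1_pg hφ hd G hG i j k x)

/-- effect of a shift on the quadratic form of the inverse matrix -/
theorem quad_shift (M : Matrix (Fin 4) (Fin 4) ℝ) (hM : IsUnit M.det) (hs : ∀ i j, M i j = M j i)
    (u v : Fin 4 → ℝ) (lam mu : ℝ) (k i : Fin 4) :
    ∑ a, ∑ b, M⁻¹ a b * ((u a + lam * M k a) * (v b + mu * M i b)) =
      (∑ a, ∑ b, M⁻¹ a b * (u a * v b)) + mu * u i + lam * v k + lam * mu * M k i := by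
  have h1 : ∀ a, ∑ b, M⁻¹ a b * M i b = if a = i then 1 else 0 := by
    intro a
    have := congrFun (congrFun (Matrix.nonsing_inv_mul M hM) a) i
    rw [Matrix.mul_apply, Matrix.one_apply] at this
    rw [← this]
    exact Finset.sum_congr rfl fun b _ => by rw [hs i b]
  have h2 : ∀ b, ∑ a, M⁻¹ a b * M k a = if k = b then 1 else 0 := by
    intro b
    have := congrFun (congrFun (Matrix.mul_nonsing_inv M hM) k) b
    rw [Matrix.mul_apply, Matrix.one_apply] at this
    rw [← this]
    exact Finset.sum_congr rfl fun a _ => by ring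
  have e : ∀ a, ∑ b, M⁻¹ a b * ((u a + lam * M k a) * (v b + mu * M i b)) =
      (∑ b, M⁻¹ a b * (u a * v b)) + mu * u a * (∑ b, M⁻¹ a b * M i b)
      + (∑ b, lam * v b * (M⁻¹ a b * M k a)) + lam * mu * M k a * (∑ b, M⁻¹ a b * M i b) := by
    intro a
    rw [Finset.mul_sum, Finset.mul_sum, ← Finset.sum_add_distrib, ← Finset.sum_add_distrib,
      ← Finset.sum_add_distrib]
    exact Finset.sum_congr rfl fun b _ => by ring
  simp only [e, h1, Finset.sum_add_distrib]
  rw [Finset.sum_comm (f := fun a b => lam * v b * (M⁻¹ a b * M k a))]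
  simp only [← Finset.mul_sum, h2]
  simp

theorem inv_pg (G : Met) (hd0 : ∀ i s, d i s ≠ 0) (x : Fin 4 → ℝ) (a b : Fin 4) :
    (Matrix.of fun p q => pg φ d G p q x)⁻¹ a b =
      (d a (x a))⁻¹ * (d b (x b))⁻¹ *
        (Matrix.of fun p q => G p q (fun i => φ i (x i)))⁻¹ a b := by
  have e : (Matrix.of fun p q => pg φ d G p q x) =
      Matrix.diagonal (fun i => d i (x i)) * (Matrix.of fun p q => G p q (fun i => φ i (x i)))
        * Matrix.diagonal (fun i => d i (x i)) := by
    ext p q
    rw [Matrix.mul_diagonal, Matrix.diagonal_mul]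
    simp only [Matrix.of_apply, pg]; ring
  have e2 : (Matrix.diagonal (fun i => d i (x i)))⁻¹ =
      Matrix.diagonal (fun i => (d i (x i))⁻¹) := by
    apply Matrix.inv_eq_right_inv
    rw [Matrix.diagonal_mul_diagonal, ← Matrix.diagonal_one]
    congr 1
    funext i
    exact mul_inv_cancel₀ (hd0 i _)
  rw [e, Matrix.mul_inv_rev, Matrix.mul_inv_rev, e2, Matrix.diagonal_mul, Matrix.mul_diagonal]
  ring

theorem riem_pg (hφ : ∀ i s, HasDerivAt (φ i) (d i s) s) (hd : ∀ i s, HasDerivAt (d i) (d' i s) s)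
    (hd' : ∀ i s, HasDerivAt (d' i) (d'' i s) s) (hd0 : ∀ i s, d i s ≠ 0)
    (G : Met) (hG : ∀ i j, Differentiable ℝ (G i j)) (hs : ∀ i j, G i j = G j i)
    (hG1 : ∀ i j k, Differentiable ℝ (fun X => fderiv ℝ (G i j) X (Pi.single k 1)))
    (i k l m : Fin 4) (x : Fin 4 → ℝ)
    (hu : IsUnit (Matrix.of fun p q => G p q (fun i => φ i (x i))).det) :
    Riem (pg φ d G) i k l m x =
      d i (x i) * d k (x k) * d l (x l) * d m (x m) * Riem G i k l m (fun i => φ i (x i)) := by
  set P : Fin 4 → ℝ := fun i => φ i (x i) with hP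
  set M : Matrix (Fin 4) (Fin 4) ℝ := Matrix.of fun p q => G p q P with hMdef
  have hMs : ∀ i j, M i j = M j i := fun i j => by simp only [hMdef, Matrix.of_apply, hs i j]
  have hterm : ∀ i k l m : Fin 4,
      ∑ a, ∑ b, (Matrix.of fun p q => pg φ d G p q x)⁻¹ a b *
        (Gam (pg φ d G) a k l x * Gam (pg φ d G) b i m x) =
      d i (x i) * d k (x k) * d l (x l) * d m (x m) *
        (∑ a, ∑ b, M⁻¹ a b * (Gam G a k l P * Gam G b i m P))
      + (dl i m * d' i (x i) * (d k (x k) * d l (x l) * Gam G i k l P)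
        + dl k l * d' k (x k) * (d i (x i) * d m (x m) * Gam G k i m P)
        + dl k l * d' k (x k) * (dl i m * d' i (x i)) * G k i P) := by
    intro i k l m
    have h1 : ∀ a b, (Matrix.of fun p q => pg φ d G p q x)⁻¹ a b *
        (Gam (pg φ d G) a k l x * Gam (pg φ d G) b i m x) =
        M⁻¹ a b * ((d k (x k) * d l (x l) * Gam G a k l P + dl k l * d' k (x k) * M k a)
          * (d i (x i) * d m (x m) * Gam G b i m P + dl i m * d' i (x i) * M i b)) := by
      intro a b
      rw [inv_pg G hd0 x a b, gam_pg hφ hd G hG hs a k l x, gam_pg hφ hd G hG hs b i m x]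
      have ha := hd0 a (x a)
      have hb := hd0 b (x b)
      rw [← hP, ← hMdef]
      have e1 : M k a = G k a P := rfl
      have e2 : M i b = G i b P := rfl
      rw [e1, e2]
      field_simp
    simp only [h1]
    rw [quad_shift M hu hMs (fun a => d k (x k) * d l (x l) * Gam G a k l P)
      (fun b => d i (x i) * d m (x m) * Gam G b i m P)]
    have e3 : ∀ a b, M⁻¹ a b * (d k (x k) * d l (x l) * Gam G a k l P *
        (d i (x i) * d m (x m) * Gam G b i m P)) =
        d i (x i) * d k (x k) * d l (x l) * d m (x m) *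
          (M⁻¹ a b * (Gam G a k l P * Gam G b i m P)) := fun a b => by ring
    simp only [e3, ← Finset.mul_sum]
    have e4 : M k i = G k i P := rfl
    rw [e4]; ring
  have hsum : ∀ g : Met, ∀ N : Matrix (Fin 4) (Fin 4) ℝ, ∀ X : Fin 4 → ℝ,
      ∑ a, ∑ b, N a b * (Gam g a k l X * Gam g b i m X - Gam g a k m X * Gam g b i l X) =
      (∑ a, ∑ b, N a b * (Gam g a k l X * Gam g b i m X))
        - ∑ a, ∑ b, N a b * (Gam g a k m X * Gam g b i l X) := by
    intro g N X
    simp only [mul_sub, Finset.sum_sub_distrib]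
  have hSec := alg_pull (fun i j => G i j P / 2)
    (fun k i j => fderiv ℝ (G i j) P (Pi.single k 1) / 2)
    (fun l k i j => fderiv ℝ (fun X => fderiv ℝ (G i j) X (Pi.single k 1)) P (Pi.single l 1) / 2)
    (fun i => d i (x i)) (fun i => d' i (x i)) (fun i => d'' i (x i)) i k l m
    (fun i j => G i j P)
    (fun i j => by rw [hs j i]; ring)
    (fun k i j => fderiv ℝ (G i j) P (Pi.single k 1))
    (fun k i j => by rw [hs j i]; ring)
    (fun l k i j => fderiv ℝ (fun X => fderiv ℝ (G i j) X (Pi.single k 1)) P (Pi.single l 1))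
    (fun l k i j => by rw [hs j i]; ring)
    (fun l k i j => fderiv ℝ (fun y => fderiv ℝ (pg φ d G i j) y (Pi.single k 1)) x
      (Pi.single l 1))
    (fun i j k l => pd2_pg hφ hd hd' G hG hG1 i j k l x)
    (fun a k l => Gam G a k l P) (fun a k l => rfl)
  unfold Riem
  rw [hsum, hsum, hterm i k l m, hterm i k m l]
  unfold Sec
  linear_combination hSec

end Pool.Agent.helper71.FT
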