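import Pool.Agent.helper71.FT.Sym
import Pool.Agent.helper71.FT.Pull

/-! The explicit metric near the flat torus. -/

namespace Pool.Agent.helper71.FT

open Ex

/-- coefficients of `g₀₀, g₀₁, g₁₁` -/
noncomputable def A22 (t : ℝ) : Ex := mul (k (-t ^ 2)) (add (k (3 / 16)) (mul (k (-5 / 16)) (mul s2 s2)))
noncomputable def A23 (t : ℝ) : Ex := mul (k (-t)) c2
noncomputable def A33 (t : ℝ) : Ex := add (k (-4)) (mul (k (-t ^ 2))
  (add (add (mul (k (11 / 3)) (mul c1 c2)) (mul (k (4 / 3)) (mul s1 s2)))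
    (add (mul (k (-5 / 2)) (mul s1 s1)) (mul (k (-1)) (mul s2 s2)))))
noncomputable def B22 (t : ℝ) : Ex :=
  mul (k (t ^ 2)) (add (mul (k (1 / 2)) (mul s1 s2)) (mul (k (15 / 16)) (mul s2 s2)))
noncomputable def B23 (t : ℝ) : Ex := mul (k (-3 * t)) (add c1 c2)
noncomputable def B33 (t : ℝ) : Ex :=
  mul (k (t ^ 2)) (add (mul (k (1 / 2)) (mul s1 s2)) (mul (k (15 / 16)) (mul s1 s1)))
noncomputable def C22 (t : ℝ) : Ex := add (k (-4)) (mul (k (-t ^ 2))
  (add (add (mul (k (11 / 3)) (mul c1 c2)) (mul (k (4 / 3)) (mul s1 s2)))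
    (add (mul (k (-5 / 2)) (mul s2 s2)) (mul (k (-1)) (mul s1 s1)))))
noncomputable def C23 (t : ℝ) : Ex := mul (k (-t)) c1
noncomputable def C33 (t : ℝ) : Ex := mul (k (-t ^ 2)) (add (k (3 / 16)) (mul (k (-5 / 16)) (mul s1 s1)))

/-- a quadratic polynomial in `y` -/
noncomputable def qd (a b c : Ex) : Ex :=
  add (mul a (mul y2 y2)) (add (mul b (mul y2 y3)) (mul c (mul y3 y3)))

/-- the metric coefficients -/
noncomputable def ge (t : ℝ) (i j : Fin 4) : Ex :=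
  match i, j with
  | 0, 0 => add (k 1) (qd (A22 t) (A23 t) (A33 t))
  | 0, 1 => qd (B22 t) (B23 t) (B33 t)
  | 1, 0 => qd (B22 t) (B23 t) (B33 t)
  | 1, 1 => add (k 1) (qd (C22 t) (C23 t) (C33 t))
  | 0, 2 => mul (k (t / 2)) (mul s2 y3)
  | 2, 0 => mul (k (t / 2)) (mul s2 y3)
  | 0, 3 => mul (k (-t / 2)) (mul s2 y2)
  | 3, 0 => mul (k (-t / 2)) (mul s2 y2)
  | 1, 2 => mul (k (-t / 2)) (mul s1 y3)
  | 2, 1 => mul (k (-t / 2)) (mul s1 y3)
  | 1, 3 => mul (k (t / 2)) (mul s1 y2)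
  | 3, 1 => mul (k (t / 2)) (mul s1 y2)
  | 2, 2 => add (k 1) (mul (k (-1)) (mul y3 y3))
  | 2, 3 => mul y2 y3
  | 3, 2 => mul y2 y3
  | 3, 3 => add (k 1) (mul (k (-1)) (mul y2 y2))

theorem ge_symm (t : ℝ) (i j : Fin 4) : ge t i j = ge t j i := by
  fin_cases i <;> fin_cases j <;> rfl

/-- Christoffel symbols -/
noncomputable def GamE (t : ℝ) (p : Fin 6 → ℝ) (a k l : Fin 4) : ℝ :=
  (ev p (D k (ge t l a)) + ev p (D l (ge t k a)) - ev p (D a (ge t k l))) / 2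

/-- second derivative part of the curvature -/
noncomputable def SecE (t : ℝ) (p : Fin 6 → ℝ) (i k l m : Fin 4) : ℝ :=
  (ev p (D l (D k (ge t i m))) + ev p (D m (D i (ge t k l))) - ev p (D m (D k (ge t i l)))
    - ev p (D l (D i (ge t k m)))) / 2

/-- the matrix of the metric -/
noncomputable def ME (t : ℝ) (p : Fin 6 → ℝ) : Matrix (Fin 4) (Fin 4) ℝ :=
  Matrix.of fun i j => ev p (ge t i j)

/-- bilinear form of a matrix -/
noncomputable def HH (H : Matrix (Fin 4) (Fin 4) ℝ) (u v : Fin 4 → ℝ) : ℝ :=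
  ∑ a, ∑ b, H a b * (u a * v b)

/-- curvature -/
noncomputable def RE (t : ℝ) (p : Fin 6 → ℝ) (i k l m : Fin 4) : ℝ :=
  SecE t p i k l m + HH (ME t p)⁻¹ (fun a => GamE t p a k l) (fun b => GamE t p b i m)
    - HH (ME t p)⁻¹ (fun a => GamE t p a k m) (fun b => GamE t p b i l)

theorem HH_smul_left (H : Matrix (Fin 4) (Fin 4) ℝ) (c : ℝ) (u v : Fin 4 → ℝ) :
    HH H (fun a => c * u a) v = c * HH H u v := by
  unfold HH
  simp only [Finset.mul_sum]
  exact Finset.sum_congr rfl fun a _ => Finset.sum_congr rfl fun b _ => by ring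

theorem HH_smul_right (H : Matrix (Fin 4) (Fin 4) ℝ) (c : ℝ) (u v : Fin 4 → ℝ) :
    HH H u (fun a => c * v a) = c * HH H u v := by
  unfold HH
  simp only [Finset.mul_sum]
  exact Finset.sum_congr rfl fun a _ => Finset.sum_congr rfl fun b _ => by ring

theorem HH_comm (H : Matrix (Fin 4) (Fin 4) ℝ) (hH : ∀ a b, H a b = H b a) (u v : Fin 4 → ℝ) :
    HH H u v = HH H v u := by
  unfold HH
  rw [Finset.sum_comm]
  exact Finset.sum_congr rfl fun a _ => Finset.sum_congr rfl fun b _ => by rw [hH b a]; ring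

theorem HH_one (u v : Fin 4 → ℝ) : HH 1 u v = ∑ a, u a * v a := by
  unfold HH
  refine Finset.sum_congr rfl fun a _ => ?_
  rw [Finset.sum_eq_single a]
  · simp
  · intro b _ hb; rw [Matrix.one_apply_ne (Ne.symm hb)]; ring
  · simp

theorem GamE_symm (t : ℝ) (p : Fin 6 → ℝ) (a k l : Fin 4) : GamE t p a k l = GamE t p a l k := by
  unfold GamE
  rw [ge_symm t k l]; ring

theorem invE_symm (t : ℝ) (p : Fin 6 → ℝ) (a b : Fin 4) : (ME t p)⁻¹ a b = (ME t p)⁻¹ b a := by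
  have h : (ME t p).transpose = ME t p := by
    ext i j; simp only [Matrix.transpose_apply, ME, Matrix.of_apply, ge_symm t i j]
  conv_lhs => rw [← h, ← Matrix.transpose_nonsing_inv]
  rfl

theorem SecE_pair (t : ℝ) (p : Fin 6 → ℝ) (i k l m : Fin 4) :
    SecE t p i k l m = SecE t p l m i k := by
  unfold SecE
  rw [D_comm p l k (ge t i m), D_comm p m i (ge t k l), D_comm p m k (ge t i l),
    D_comm p l i (ge t k m), ge_symm t i m, ge_symm t k l, ge_symm t i l, ge_symm t k m]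
  ring

theorem RE_pair (t : ℝ) (p : Fin 6 → ℝ) (i k l m : Fin 4) : RE t p i k l m = RE t p l m i k := by
  unfold RE
  rw [SecE_pair t p i k l m]
  have h1 : (fun a => GamE t p a m i) = fun a => GamE t p a i m :=
    funext fun a => GamE_symm t p a m i
  have h2 : (fun a => GamE t p a l k) = fun a => GamE t p a k l :=
    funext fun a => GamE_symm t p a l k
  have h3 : (fun a => GamE t p a m k) = fun a => GamE t p a k m :=
    funext fun a => GamE_symm t p a m k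
  have h4 : (fun a => GamE t p a l i) = fun a => GamE t p a i l :=
    funext fun a => GamE_symm t p a l i
  rw [h1, h2, h3, h4, HH_comm _ (invE_symm t p) (fun a => GamE t p a i m)]

theorem RE_anti1 (t : ℝ) (p : Fin 6 → ℝ) (i k l m : Fin 4) :
    RE t p i k l m = - RE t p k i l m := by
  unfold RE
  rw [HH_comm _ (invE_symm t p) (fun a => GamE t p a i l) (fun b => GamE t p b k m),
    HH_comm _ (invE_symm t p) (fun a => GamE t p a i m) (fun b => GamE t p b k l)]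
  unfold SecE
  ring

theorem RE_anti2 (t : ℝ) (p : Fin 6 → ℝ) (i k l m : Fin 4) :
    RE t p i k l m = - RE t p i k m l := by
  rw [RE_pair t p i k l m, RE_anti1, RE_pair t p m l i k]

theorem anti_sum (B : Fin 4 → Fin 4 → ℝ) (hB : ∀ i k, B i k = - B k i) (u v : Fin 4 → ℝ) :
    ∑ i, ∑ k, B i k * (u i * v k) =
      B 0 1 * (u 0 * v 1 - u 1 * v 0) + B 0 2 * (u 0 * v 2 - u 2 * v 0)
      + B 0 3 * (u 0 * v 3 - u 3 * v 0) + B 1 2 * (u 1 * v 2 - u 2 * v 1)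
      + B 1 3 * (u 1 * v 3 - u 3 * v 1) + B 2 3 * (u 2 * v 3 - u 3 * v 2) := by
  have h : ∀ i, B i i = 0 := fun i => by linarith [hB i i]
  simp only [Fin.sum_univ_four, h]
  rw [hB 1 0, hB 2 0, hB 3 0, hB 2 1, hB 3 1, hB 3 2]
  ring

theorem pair_sum (R : Fin 4 → Fin 4 → Fin 4 → Fin 4 → ℝ) (h1 : ∀ i k l m, R i k l m = - R k i l m)
    (h2 : ∀ i k l m, R i k l m = - R i k m l) (h3 : ∀ i k l m, R i k l m = R l m i k)
    (u v : Fin 4 → ℝ) (P01 P02 P03 P12 P13 P23 : ℝ)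
    (e01 : P01 = u 0 * v 1 - u 1 * v 0) (e02 : P02 = u 0 * v 2 - u 2 * v 0)
    (e03 : P03 = u 0 * v 3 - u 3 * v 0) (e12 : P12 = u 1 * v 2 - u 2 * v 1)
    (e13 : P13 = u 1 * v 3 - u 3 * v 1) (e23 : P23 = u 2 * v 3 - u 3 * v 2) :
    ∑ i, ∑ k, ∑ l, ∑ m, R i k l m * u i * v k * u l * v m =
      R 0 1 0 1 * P01 ^ 2
      + 2 * P01 * (R 0 1 0 2 * P02 + R 0 1 0 3 * P03 + R 0 1 1 2 * P12 + R 0 1 1 3 * P13)
      + 2 * R 0 1 2 3 * (P01 * P23)
      + (R 0 2 0 2 * P02 ^ 2 + R 0 3 0 3 * P03 ^ 2 + R 1 2 1 2 * P12 ^ 2 + R 1 3 1 3 * P13 ^ 2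
        + 2 * R 0 2 0 3 * P02 * P03 + 2 * R 0 2 1 2 * P02 * P12 + 2 * R 0 2 1 3 * P02 * P13
        + 2 * R 0 3 1 2 * P03 * P12 + 2 * R 0 3 1 3 * P03 * P13 + 2 * R 1 2 1 3 * P12 * P13)
      + 2 * P23 * (R 0 2 2 3 * P02 + R 0 3 2 3 * P03 + R 1 2 2 3 * P12 + R 1 3 2 3 * P13)
      + R 2 3 2 3 * P23 ^ 2 := by
  have e : ∀ i k, ∑ l, ∑ m, R i k l m * u i * v k * u l * v m =
      (∑ l, ∑ m, R i k l m * (u l * v m)) * (u i * v k) := by
    intro i k
    simp only [Finset.sum_mul]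
    exact Finset.sum_congr rfl fun l _ => Finset.sum_congr rfl fun m _ => by ring
  simp only [e]
  rw [anti_sum (fun i k => ∑ l, ∑ m, R i k l m * (u l * v m))]
  · simp only [anti_sum (fun l m => R _ _ l m) (fun l m => h2 _ _ l m)]
    rw [← e01, ← e02, ← e03, ← e12, ← e13, ← e23, h3 0 2 0 1, h3 0 3 0 1, h3 1 2 0 1, h3 1 3 0 1,
      h3 2 3 0 1, h3 0 3 0 2, h3 1 2 0 2, h3 1 3 0 2, h3 2 3 0 2, h3 1 2 0 3, h3 1 3 0 3,
      h3 2 3 0 3, h3 1 3 1 2, h3 2 3 1 2, h3 2 3 1 3]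
    ring
  · intro i k
    rw [← Finset.sum_neg_distrib]
    refine Finset.sum_congr rfl fun l _ => ?_
    rw [← Finset.sum_neg_distrib]
    refine Finset.sum_congr rfl fun m _ => ?_
    rw [h1 i k l m]; ring

end Pool.Agent.helper71.FT
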