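import Pool.Agent.helper71.FT.Form

/-! Positivity of the curvature form. -/

namespace Pool.Agent.helper71.FT

open Ex

theorem ME_zero (t : ℝ) (w : Fin 4 → ℝ) : ME t (rp w 0) = 1 := by
  ext i j
  fin_cases i <;> fin_cases j <;>
    simp [ME, ge, qd, ev, rp, Matrix.one_apply]

theorem Gam_zero2 (t : ℝ) (w : Fin 4 → ℝ) :
    GamE t (rp w 0) 0 0 0 = 0 ∧ GamE t (rp w 0) 0 0 1 = 0 ∧ GamE t (rp w 0) 0 1 1 = 0 ∧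
    GamE t (rp w 0) 1 0 0 = 0 ∧ GamE t (rp w 0) 1 0 1 = 0 ∧ GamE t (rp w 0) 1 1 1 = 0 := by
  refine ⟨?_, ?_, ?_, ?_, ?_, ?_⟩ <;>
  · simp [GamE, ge, qd, A22, A23, A33, B22, B23, B33, C22, C23, C33, D, ev, rp, a1, a2, b2, b3]

theorem NN_zero (t : ℝ) (w : Fin 4 → ℝ) (z : ℝ × ℝ) :
    NN t w 0 z 0 0 = ![0, 0, GamE t (rp w z) 2 0 0, GamE t (rp w z) 3 0 0] ∧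
    NN t w 0 z 0 1 = ![0, 0, GamE t (rp w z) 2 0 1, GamE t (rp w z) 3 0 1] ∧
    NN t w 0 z 1 1 = ![0, 0, GamE t (rp w z) 2 1 1, GamE t (rp w z) 3 1 1] := by
  obtain ⟨h1, h2, h3, h4, h5, h6⟩ := Gam_zero2 t w
  refine ⟨?_, ?_, ?_⟩
  · unfold NN; rw [zero_add, h1, h4]; simp
  · unfold NN; rw [zero_add, h2, h5]; simp
  · unfold NN; rw [zero_add, h3, h6]; simp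

set_option maxHeartbeats 4000000 in
theorem FF_zero (t : ℝ) (w : Fin 4 → ℝ) (v : Fin 7 → ℝ) :
    FF t 0 w v =
    25 / 256 * t ^ 4 * w 3 ^ 4 * v 0 ^ 2 + 65 / 48 * t ^ 4 * w 1 * w 3 ^ 3 * v 0 ^ 2
    - 1 / 16 * t ^ 4 * w 1 ^ 2 * w 3 ^ 2 * v 1 ^ 2
    - 1 / 16 * t ^ 4 * w 1 ^ 2 * w 3 ^ 2 * v 0 ^ 2 + 65 / 48 * t ^ 4 * w 1 ^ 3 * w 3 * v 1 ^ 2
    + 25 / 256 * t ^ 4 * w 1 ^ 4 * v 1 ^ 2 + 55 / 48 * t ^ 4 * w 0 * w 2 * w 3 ^ 2 * v 0 ^ 2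
    + 55 / 48 * t ^ 4 * w 0 * w 1 ^ 2 * w 2 * v 1 ^ 2 - 5 / 2 * t ^ 3 * w 3 ^ 3 * v 0 * v 5
    - 15 / 16 * t ^ 3 * w 3 ^ 3 * v 0 * v 3 - 5 / 4 * t ^ 3 * w 2 * w 3 ^ 2 * v 0 * v 1
    + 3 / 2 * t ^ 3 * w 1 * w 3 ^ 2 * v 1 * v 2 + 19 / 48 * t ^ 3 * w 1 * w 3 ^ 2 * v 0 * v 5
    - 13 / 16 * t ^ 3 * w 1 * w 3 ^ 2 * v 0 * v 3 - 13 / 3 * t ^ 3 * w 1 * w 2 * w 3 * v 0 * v 1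
    + 13 / 16 * t ^ 3 * w 1 ^ 2 * w 3 * v 1 * v 4 - 19 / 48 * t ^ 3 * w 1 ^ 2 * w 3 * v 1 * v 2
    - 3 / 2 * t ^ 3 * w 1 ^ 2 * w 3 * v 0 * v 5 - 7 / 8 * t ^ 3 * w 1 ^ 2 * w 2 * v 0 * v 1
    + 15 / 16 * t ^ 3 * w 1 ^ 3 * v 1 * v 4 + 5 / 2 * t ^ 3 * w 1 ^ 3 * v 1 * v 2
    - 7 / 8 * t ^ 3 * w 0 * w 3 ^ 2 * v 0 * v 1 + 11 / 3 * t ^ 3 * w 0 * w 2 * w 3 * v 0 * v 5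
    - 11 / 3 * t ^ 3 * w 0 * w 2 ^ 2 * v 0 * v 1 - 13 / 3 * t ^ 3 * w 0 * w 1 * w 3 * v 0 * v 1
    - 11 / 3 * t ^ 3 * w 0 * w 1 * w 2 * v 1 * v 2 - 5 / 4 * t ^ 3 * w 0 * w 1 ^ 2 * v 0 * v 1
    - 11 / 3 * t ^ 3 * w 0 ^ 2 * w 2 * v 0 * v 1 + 3 / 16 * t ^ 4 * w 3 ^ 2 * v 1 ^ 2
    + 15 / 32 * t ^ 4 * w 3 ^ 2 * v 0 ^ 2 - 1 / 4 * t ^ 4 * w 1 * w 3 * v 1 ^ 2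
    - 1 / 4 * t ^ 4 * w 1 * w 3 * v 0 ^ 2 + 15 / 32 * t ^ 4 * w 1 ^ 2 * v 1 ^ 2
    + 3 / 16 * t ^ 4 * w 1 ^ 2 * v 0 ^ 2 - 11 / 16 * t ^ 4 * w 0 * w 2 * v 1 ^ 2
    - 11 / 16 * t ^ 4 * w 0 * w 2 * v 0 ^ 2 - 5 / 2 * t ^ 2 * w 3 ^ 2 * v 4 ^ 2
    - 3 / 4 * t ^ 2 * w 3 ^ 2 * v 3 ^ 2 - 15 / 8 * t ^ 2 * w 3 ^ 2 * v 2 * v 4
    - 1 / 16 * t ^ 2 * w 3 ^ 2 * v 2 ^ 2 + 4 * t ^ 2 * w 3 ^ 2 * v 1 ^ 2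
    + 5 / 4 * t ^ 2 * w 3 ^ 2 * v 0 ^ 2 - 6 * t ^ 2 * w 2 * w 3 * v 1 * v 3
    + 5 / 2 * t ^ 2 * w 2 * w 3 * v 0 * v 4 + 1 / 4 * t ^ 2 * w 2 * w 3 * v 0 * v 2
    + t ^ 2 * w 2 ^ 2 * v 0 ^ 2 + 4 / 3 * t ^ 2 * w 1 * w 3 * v 4 ^ 2
    - 3 / 2 * t ^ 2 * w 1 * w 3 * v 3 * v 5 + 4 / 3 * t ^ 2 * w 1 * w 3 * v 3 ^ 2
    - 3 / 2 * t ^ 2 * w 1 * w 3 * v 2 * v 4 + 2 * t ^ 2 * w 1 * w 3 * v 1 ^ 2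
    + 2 * t ^ 2 * w 1 * w 3 * v 0 ^ 2 + 9 * t ^ 2 * w 1 * w 2 * v 0 * v 4
    + t ^ 2 * w 1 * w 2 * v 0 * v 2 - 1 / 16 * t ^ 2 * w 1 ^ 2 * v 5 ^ 2
    - 3 / 4 * t ^ 2 * w 1 ^ 2 * v 4 ^ 2 - 15 / 8 * t ^ 2 * w 1 ^ 2 * v 3 * v 5
    - 5 / 2 * t ^ 2 * w 1 ^ 2 * v 3 ^ 2 + 5 / 4 * t ^ 2 * w 1 ^ 2 * v 1 ^ 2
    + 4 * t ^ 2 * w 1 ^ 2 * v 0 ^ 2 - t ^ 2 * w 0 * w 3 * v 1 * v 5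
    - 9 * t ^ 2 * w 0 * w 3 * v 1 * v 3 + 11 / 3 * t ^ 2 * w 0 * w 2 * v 4 ^ 2
    + 11 / 3 * t ^ 2 * w 0 * w 2 * v 3 ^ 2 - 1 / 4 * t ^ 2 * w 0 * w 1 * v 1 * v 5
    - 5 / 2 * t ^ 2 * w 0 * w 1 * v 1 * v 3 + 6 * t ^ 2 * w 0 * w 1 * v 0 * v 4
    + t ^ 2 * w 0 ^ 2 * v 1 ^ 2 - 3 / 16 * t ^ 3 * w 3 * v 1 * v 4
    + 3 / 16 * t ^ 3 * w 1 * v 0 * v 3 - 8 * t * w 3 * v 1 * v 4 + 2 * t * w 3 * v 0 * v 3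
    + 6 * t * w 2 * v 3 * v 4 + t * w 2 * v 2 * v 3 - 2 * t * w 1 * v 1 * v 4
    + 8 * t * w 1 * v 0 * v 3 + t * w 0 * v 4 * v 5 + 6 * t * w 0 * v 3 * v 4
    + 3 / 16 * t ^ 2 * v 5 ^ 2 + 3 / 16 * t ^ 2 * v 2 ^ 2 - 3 / 4 * t ^ 2 * v 1 ^ 2
    - 3 / 4 * t ^ 2 * v 0 ^ 2 + 3 * v 6 ^ 2 + 4 * v 4 ^ 2 + 4 * v 3 ^ 2 := by
  obtain ⟨n00, n01, n11⟩ := NN_zero t w (v 0, v 1)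
  unfold FF TT RE
  rw [show min (1 : Fin 4) 0 = 0 from rfl, show max (1 : Fin 4) 0 = 1 from rfl,
    show min (1 : Fin 4) 1 = 1 from rfl, show max (1 : Fin 4) 1 = 1 from rfl, n00, n01, n11,
    ME_zero, inv_one]
  simp only [HH_one, Fin.sum_univ_four]
  simp [SecE, GamE, ge, qd, A22, A23, A33, B22, B23, B33, C22, C23, C33, D, ev, rp, a1, a2, b2, b3]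
  ring

set_option maxHeartbeats 4000000 in
/-- the blown-up form -/
noncomputable def Qh (t : ℝ) (w : Fin 4 → ℝ) (v : Fin 7 → ℝ) : ℝ :=
    25 / 256 * t ^ 2 * w 3 ^ 4 * v 0 ^ 2 + 65 / 48 * t ^ 2 * w 1 * w 3 ^ 3 * v 0 ^ 2
    - 1 / 16 * t ^ 2 * w 1 ^ 2 * w 3 ^ 2 * v 1 ^ 2
    - 1 / 16 * t ^ 2 * w 1 ^ 2 * w 3 ^ 2 * v 0 ^ 2 + 65 / 48 * t ^ 2 * w 1 ^ 3 * w 3 * v 1 ^ 2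
    + 25 / 256 * t ^ 2 * w 1 ^ 4 * v 1 ^ 2 + 55 / 48 * t ^ 2 * w 0 * w 2 * w 3 ^ 2 * v 0 ^ 2
    + 55 / 48 * t ^ 2 * w 0 * w 1 ^ 2 * w 2 * v 1 ^ 2 - 15 / 16 * t ^ 2 * w 3 ^ 3 * v 0 * v 3
    - 13 / 16 * t ^ 2 * w 1 * w 3 ^ 2 * v 0 * v 3 + 13 / 16 * t ^ 2 * w 1 ^ 2 * w 3 * v 1 * v 4
    + 15 / 16 * t ^ 2 * w 1 ^ 3 * v 1 * v 4 - 5 / 2 * t * w 3 ^ 3 * v 0 * v 5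
    - 5 / 4 * t * w 2 * w 3 ^ 2 * v 0 * v 1 + 3 / 2 * t * w 1 * w 3 ^ 2 * v 1 * v 2
    + 19 / 48 * t * w 1 * w 3 ^ 2 * v 0 * v 5 - 13 / 3 * t * w 1 * w 2 * w 3 * v 0 * v 1
    - 19 / 48 * t * w 1 ^ 2 * w 3 * v 1 * v 2 - 3 / 2 * t * w 1 ^ 2 * w 3 * v 0 * v 5
    - 7 / 8 * t * w 1 ^ 2 * w 2 * v 0 * v 1 + 5 / 2 * t * w 1 ^ 3 * v 1 * v 2
    - 7 / 8 * t * w 0 * w 3 ^ 2 * v 0 * v 1 + 11 / 3 * t * w 0 * w 2 * w 3 * v 0 * v 5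
    - 11 / 3 * t * w 0 * w 2 ^ 2 * v 0 * v 1 - 13 / 3 * t * w 0 * w 1 * w 3 * v 0 * v 1
    - 11 / 3 * t * w 0 * w 1 * w 2 * v 1 * v 2 - 5 / 4 * t * w 0 * w 1 ^ 2 * v 0 * v 1
    - 11 / 3 * t * w 0 ^ 2 * w 2 * v 0 * v 1 - 5 / 2 * t ^ 2 * w 3 ^ 2 * v 4 ^ 2
    - 3 / 4 * t ^ 2 * w 3 ^ 2 * v 3 ^ 2 + 3 / 16 * t ^ 2 * w 3 ^ 2 * v 1 ^ 2
    + 15 / 32 * t ^ 2 * w 3 ^ 2 * v 0 ^ 2 + 4 / 3 * t ^ 2 * w 1 * w 3 * v 4 ^ 2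
    + 4 / 3 * t ^ 2 * w 1 * w 3 * v 3 ^ 2 - 1 / 4 * t ^ 2 * w 1 * w 3 * v 1 ^ 2
    - 1 / 4 * t ^ 2 * w 1 * w 3 * v 0 ^ 2 - 3 / 4 * t ^ 2 * w 1 ^ 2 * v 4 ^ 2
    - 5 / 2 * t ^ 2 * w 1 ^ 2 * v 3 ^ 2 + 15 / 32 * t ^ 2 * w 1 ^ 2 * v 1 ^ 2
    + 3 / 16 * t ^ 2 * w 1 ^ 2 * v 0 ^ 2 + 11 / 3 * t ^ 2 * w 0 * w 2 * v 4 ^ 2
    + 11 / 3 * t ^ 2 * w 0 * w 2 * v 3 ^ 2 - 11 / 16 * t ^ 2 * w 0 * w 2 * v 1 ^ 2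
    - 11 / 16 * t ^ 2 * w 0 * w 2 * v 0 ^ 2 - 15 / 8 * t * w 3 ^ 2 * v 2 * v 4
    - 6 * t * w 2 * w 3 * v 1 * v 3 + 5 / 2 * t * w 2 * w 3 * v 0 * v 4
    - 3 / 2 * t * w 1 * w 3 * v 3 * v 5 - 3 / 2 * t * w 1 * w 3 * v 2 * v 4
    + 9 * t * w 1 * w 2 * v 0 * v 4 - 15 / 8 * t * w 1 ^ 2 * v 3 * v 5
    - 9 * t * w 0 * w 3 * v 1 * v 3 - 5 / 2 * t * w 0 * w 1 * v 1 * v 3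
    + 6 * t * w 0 * w 1 * v 0 * v 4 - 3 / 16 * t ^ 2 * w 3 * v 1 * v 4
    + 3 / 16 * t ^ 2 * w 1 * v 0 * v 3 - 1 / 16 * w 3 ^ 2 * v 2 ^ 2 + 4 * w 3 ^ 2 * v 1 ^ 2
    + 5 / 4 * w 3 ^ 2 * v 0 ^ 2 + 1 / 4 * w 2 * w 3 * v 0 * v 2 + w 2 ^ 2 * v 0 ^ 2
    + 2 * w 1 * w 3 * v 1 ^ 2 + 2 * w 1 * w 3 * v 0 ^ 2 + w 1 * w 2 * v 0 * v 2
    - 1 / 16 * w 1 ^ 2 * v 5 ^ 2 + 5 / 4 * w 1 ^ 2 * v 1 ^ 2 + 4 * w 1 ^ 2 * v 0 ^ 2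
    - w 0 * w 3 * v 1 * v 5 - 1 / 4 * w 0 * w 1 * v 1 * v 5 + w 0 ^ 2 * v 1 ^ 2
    + 6 * t * w 2 * v 3 * v 4 + 6 * t * w 0 * v 3 * v 4 - 8 * w 3 * v 1 * v 4
    + 2 * w 3 * v 0 * v 3 + w 2 * v 2 * v 3 - 2 * w 1 * v 1 * v 4 + 8 * w 1 * v 0 * v 3
    + w 0 * v 4 * v 5 + 3 / 16 * v 5 ^ 2 + 4 * v 4 ^ 2 + 4 * v 3 ^ 2 + 3 / 16 * v 2 ^ 2
    - 3 / 4 * v 1 ^ 2 - 3 / 4 * v 0 ^ 2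

set_option maxHeartbeats 4000000 in
theorem FF_blow (t : ℝ) (w : Fin 4 → ℝ) (v : Fin 7 → ℝ) :
    FF t 0 w ![v 0, v 1, v 2, t * v 3, t * v 4, v 5, v 6] = 3 * v 6 ^ 2 + t ^ 2 * Qh t w v := by
  rw [FF_zero]
  unfold Qh
  simp only [Matrix.cons_val_zero, Matrix.cons_val_one, Matrix.cons_val]
  ring

end Pool.Agent.helper71.FT
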