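import Mathlib

/-! Trigonometric-polynomial expressions on `ℝ⁴` with exact derivatives. -/

namespace Pool.Agent.helper71.FT

/-- Expressions in the cosines and sines of `θ₁ = 2 x₀ + x₁`, `θ₂ = x₀ + 2 x₁`
and the coordinates `y₂ = x₂`, `y₃ = x₃`. -/
inductive Ex : Type
  | k : ℝ → Ex
  | c1 : Ex
  | s1 : Ex
  | c2 : Ex
  | s2 : Ex
  | y2 : Ex
  | y3 : Ex
  | add : Ex → Ex → Ex
  | mul : Ex → Ex → Ex

open Ex

/-- gradient of `θ₁` -/
def a1 : Fin 4 → ℝ := ![2, 1, 0, 0]
/-- gradient of `θ₂` -/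
def a2 : Fin 4 → ℝ := ![1, 2, 0, 0]
/-- gradient of `y₂` -/
def b2 : Fin 4 → ℝ := ![0, 0, 1, 0]
/-- gradient of `y₃` -/
def b3 : Fin 4 → ℝ := ![0, 0, 0, 1]

/-- value of an expression at a point with prescribed cosines, sines and `y` -/
noncomputable def ev (p : Fin 6 → ℝ) : Ex → ℝ
  | k r => r
  | c1 => p 0
  | s1 => p 1
  | c2 => p 2
  | s2 => p 3
  | y2 => p 4
  | y3 => p 5
  | add a b => ev p a + ev p b
  | mul a b => ev p a * ev p b

/-- symbolic partial derivative -/
noncomputable def D (i : Fin 4) : Ex → Ex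
  | k _ => k 0
  | c1 => mul (k (-a1 i)) s1
  | s1 => mul (k (a1 i)) c1
  | c2 => mul (k (-a2 i)) s2
  | s2 => mul (k (a2 i)) c2
  | y2 => k (b2 i)
  | y3 => k (b3 i)
  | add a b => add (D i a) (D i b)
  | mul a b => add (mul (D i a) b) (mul a (D i b))

theorem D_comm (p : Fin 6 → ℝ) (i j : Fin 4) (e : Ex) : ev p (D i (D j e)) = ev p (D j (D i e)) := by
  induction e with
  | k r => simp [D, ev]
  | c1 => simp only [D, ev]; ring
  | s1 => simp only [D, ev]; ring
  | c2 => simp only [D, ev]; ring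
  | s2 => simp only [D, ev]; ring
  | y2 => simp [D, ev]
  | y3 => simp [D, ev]
  | add a b ha hb => simp only [D, ev, ha, hb]
  | mul a b ha hb => simp only [D, ev, ha, hb]; ring

theorem continuous_ev (e : Ex) : Continuous (fun p : Fin 6 → ℝ => ev p e) := by
  induction e with
  | k r => exact continuous_const
  | c1 => exact continuous_apply _
  | s1 => exact continuous_apply _
  | c2 => exact continuous_apply _
  | s2 => exact continuous_apply _
  | y2 => exact continuous_apply _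
  | y3 => exact continuous_apply _
  | add a b ha hb => exact ha.add hb
  | mul a b ha hb => exact ha.mul hb

/-- the vector of cosines, sines and `y` at a point of `ℝ⁴` -/
noncomputable def pt (X : Fin 4 → ℝ) : Fin 6 → ℝ :=
  ![Real.cos (2 * X 0 + X 1), Real.sin (2 * X 0 + X 1),
    Real.cos (X 0 + 2 * X 1), Real.sin (X 0 + 2 * X 1), X 2, X 3]

/-- the function on `ℝ⁴` defined by an expression -/
noncomputable def fn (e : Ex) (X : Fin 4 → ℝ) : ℝ := ev (pt X) e

/-- the differential of `fn e` -/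
noncomputable def dfn (e : Ex) (X : Fin 4 → ℝ) : (Fin 4 → ℝ) →L[ℝ] ℝ :=
  ∑ i, fn (D i e) X • ContinuousLinearMap.proj i

theorem hasFDerivAt_fn (e : Ex) (X : Fin 4 → ℝ) : HasFDerivAt (fn e) (dfn e X) X := by
  have hp : ∀ i : Fin 4, HasFDerivAt (fun X : Fin 4 → ℝ => X i)
      (ContinuousLinearMap.proj (R := ℝ) i : (Fin 4 → ℝ) →L[ℝ] ℝ) X :=
    fun i => (ContinuousLinearMap.proj (R := ℝ) i : (Fin 4 → ℝ) →L[ℝ] ℝ).hasFDerivAt
  have ht1 : HasFDerivAt (fun X : Fin 4 → ℝ => 2 * X 0 + X 1)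
      ((2 : ℝ) • (ContinuousLinearMap.proj (R := ℝ) 0 : (Fin 4 → ℝ) →L[ℝ] ℝ)
        + ContinuousLinearMap.proj (R := ℝ) 1) X := ((hp 0).const_mul 2).add (hp 1)
  have ht2 : HasFDerivAt (fun X : Fin 4 → ℝ => X 0 + 2 * X 1)
      ((ContinuousLinearMap.proj (R := ℝ) 0 : (Fin 4 → ℝ) →L[ℝ] ℝ)
        + (2 : ℝ) • ContinuousLinearMap.proj (R := ℝ) 1) X := (hp 0).add ((hp 1).const_mul 2)
  induction e with
  | k r =>
    refine (hasFDerivAt_const r X).congr_fderiv ?_
    ext v; simp [dfn, fn, D, ev]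
  | c1 =>
    refine ht1.cos.congr_fderiv ?_
    ext v; simp [dfn, fn, D, ev, pt, a1, Fin.sum_univ_four]; ring
  | s1 =>
    refine ht1.sin.congr_fderiv ?_
    ext v; simp [dfn, fn, D, ev, pt, a1, Fin.sum_univ_four]; ring
  | c2 =>
    refine ht2.cos.congr_fderiv ?_
    ext v; simp [dfn, fn, D, ev, pt, a2, Fin.sum_univ_four]; ring
  | s2 =>
    refine ht2.sin.congr_fderiv ?_
    ext v; simp [dfn, fn, D, ev, pt, a2, Fin.sum_univ_four]; ring
  | y2 =>
    refine (hp 2).congr_fderiv ?_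
    ext v; simp [dfn, fn, D, ev, b2, Fin.sum_univ_four]
  | y3 =>
    refine (hp 3).congr_fderiv ?_
    ext v; simp [dfn, fn, D, ev, b3, Fin.sum_univ_four]
  | add a b ha hb =>
    refine (ha.add hb).congr_fderiv ?_
    ext v; simp only [dfn, fn, D, ev, Fin.sum_univ_four, ContinuousLinearMap.add_apply,
      ContinuousLinearMap.smul_apply, smul_eq_mul]; ring
  | mul a b ha hb =>
    refine (ha.mul hb).congr_fderiv ?_
    ext v; simp only [dfn, fn, D, ev, Fin.sum_univ_four, ContinuousLinearMap.add_apply,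
      ContinuousLinearMap.smul_apply, smul_eq_mul]; ring

theorem fderiv_fn (e : Ex) (k : Fin 4) :
    (fun X => fderiv ℝ (fn e) X (Pi.single k 1)) = fn (D k e) := by
  funext X
  rw [(hasFDerivAt_fn e X).fderiv]
  simp only [dfn, ContinuousLinearMap.sum_apply, ContinuousLinearMap.smul_apply,
    ContinuousLinearMap.proj_apply, smul_eq_mul]
  rw [Finset.sum_eq_single k]
  · simp
  · intro b _ hb; simp [Pi.single_apply, hb]
  · simp

theorem contDiff_fn (e : Ex) (n : ℕ) : ContDiff ℝ n (fn e) := by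
  induction e with
  | k r => exact contDiff_const
  | c1 => exact Real.contDiff_cos.comp (by fun_prop)
  | s1 => exact Real.contDiff_sin.comp (by fun_prop)
  | c2 => exact Real.contDiff_cos.comp (by fun_prop)
  | s2 => exact Real.contDiff_sin.comp (by fun_prop)
  | y2 => exact contDiff_apply ℝ ℝ 2
  | y3 => exact contDiff_apply ℝ ℝ 3
  | add a b ha hb => exact ha.add hb
  | mul a b ha hb => exact ha.mul hb

end Pool.Agent.helper71.FT
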